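import Pool.Agent.Work.MP_bec1e1_lv_helper15.Defs

/-!
# Linear variance of the LCS for every alphabet: the top level statements
-/

set_option autoImplicit false
set_option maxHeartbeats 400000

open Filter Topology
open scoped BigOperators

namespace Pool.Agent.LCSV

open Pool.Agent.LCSE

noncomputable section

/-- **DEF**: the mean is within `C √(a+b)` of the shape function, in all directions. -/
def Stmt_DEF : Prop := ∀ k : ℕ, 2 ≤ k → ∃ C : ℝ, 0 < C ∧ ∀ a b : ℕ,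
  Phi k a b - F k a b ≤ C * √((a : ℝ) + b)

/-- **Q**: quenched exponential growth at every `z > 0`. -/
def Stmt_Q : Prop := ∀ k : ℕ, 2 ≤ k → Rigid k → ∀ z : ℝ, 0 < z → ∃ n : ℕ, 1 ≤ n ∧
  z * gam k * n < Ex k n fun y => Real.log (Ex k n fun x => Real.exp (z * (L x y : ℝ)))

/-- **BASE**: near the column rich ray of the flat cone the LCS is at most `C₀ √m` below the line
with probability close to one, at arbitrarily large scales. -/
def Stmt_BASE : Prop := ∀ k : ℕ, 2 ≤ k → Rigid k → ∃ C₀ : ℝ, 0 < C₀ ∧ ∀ ε τ : ℝ, 0 < ε → 0 < τ →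
  ∀ N₀ : ℕ, ∃ m b : ℕ, N₀ ≤ m ∧ Flat k m b ∧ (rho k - τ) * m ≤ b ∧
    (Ex k m fun x => Ex k b fun y =>
      ind ((L x y : ℝ) ≤ al k * ((m : ℝ) + b) - C₀ * √(m : ℝ))) ≤ ε

/-- **A**: a linear upper bound for the mean over `y` for every fixed word `x`. -/
def Stmt_A : Prop := ∀ k : ℕ, 2 ≤ k → Rigid k → ∃ p q : ℝ, 0 < p ∧ 0 < q ∧ p + q = gam k ∧
  (∀ a b : ℝ, 0 ≤ a → 0 ≤ b → Flat k a b → p * a + q * b = al k * (a + b)) ∧
  ∀ (x : List (Fin k)) (b : ℕ), (Ex k b fun y => (L x y : ℝ)) ≤ p * x.length + q * b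

/-- **LU** (robust free luck): for every set `B` of words of length `n` of probability at least
`1 / 2` and for all `V` of length `n` outside of a set of probability `exp (-c n)`, the probability
that `u ∈ B` and `L u V ≥ (γ + ζ) n` is at least `exp (- lam ζ n)`. -/
def Stmt_LU : Prop := ∀ k : ℕ, 2 ≤ k → Rigid k → ∀ lam : ℝ, 0 < lam →
  ∃ (ζ c : ℝ), 0 < ζ ∧ ζ < 1 ∧ 0 < c ∧ ∀ᶠ n : ℕ in atTop, ∀ B : List (Fin k) → Prop,
    1 / 2 ≤ (Ex k n fun u => ind (B u)) →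
    (Ex k n fun V => ind ((Ex k n fun u => ind (B u ∧ (gam k + ζ) * n ≤ (L u V : ℝ))) <
      Real.exp (-(lam * ζ * n)))) ≤ Real.exp (-(c * n))

/-- the main theorem -/
def Stmt_MAIN : Prop := ∀ k : ℕ, 2 ≤ k → ¬ Rigid k

/-- **FIN** -/
def Stmt_FIN : Prop := Stmt_DEF → Stmt_A → Stmt_LU → Stmt_MAIN

end

end Pool.Agent.LCSV
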