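import Pool.Agent.Work.MP_bec1e1_lv_helper15.Defs

/-!
# Linear variance of the LCS: generic tools (one `Prop` per block)

File for block `X`: `TX.lean` in this folder (or your own `Work/MP_bec1e1_<...>` folder) with
`theorem stmt_X : Stmt_X`.
-/

set_option autoImplicit false
set_option maxHeartbeats 400000

open Filter Topology
open scoped BigOperators

namespace Pool.Agent.LCSV

open Pool.Agent.LCSE

noncomputable section

/-- density with respect to the uniform law on words of length `s` -/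
structure IsDens (k s : ℕ) (g : List (Fin k) → ℝ) : Prop where
  nonneg : ∀ w, w.length = s → 0 ≤ g w
  one : Ex k s g = 1

/-! ### deterministic facts on `L` -/

/-- **MONGE** -/
def Stmt_MONGE : Prop := ∀ (k : ℕ) (X Y₁ Y₂ Y₃ : List (Fin k)),
  L X Y₂ + L X (Y₁ ++ Y₂ ++ Y₃) ≤ L X (Y₁ ++ Y₂) + L X (Y₂ ++ Y₃)

/-- **ROWC**: concavity in the number of rows. -/
def Stmt_ROWC : Prop := ∀ (k : ℕ) (A X B Y : List (Fin k)),
  L (A ++ X ++ B) Y + L X Y ≤ L (A ++ X) Y + L (X ++ B) Y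

/-- **SPLIT**: windows of an optimal path. -/
def Stmt_SPLIT : Prop := ∀ (k : ℕ) (xs : List (List (Fin k))) (y : List (Fin k)), xs ≠ [] →
  ∃ vs : List (List (Fin k)), vs.length = xs.length ∧ vs.flatten = y ∧
    (L xs.flatten y : ℝ) = (List.zipWith (fun x v => (L x v : ℝ)) xs vs).sum

/-- **SPLITGE** -/
def Stmt_SPLITGE : Prop := ∀ (k : ℕ) (xs vs : List (List (Fin k))), vs.length = xs.length →
  (List.zipWith (fun x v => (L x v : ℝ)) xs vs).sum ≤ (L xs.flatten vs.flatten : ℝ)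

/-! ### concentration -/

/-- **MGF**: bounded differences, moment generating function, for independent cells of density `g`
(`g = 1`, `s = 1`: letters). -/
def Stmt_MGF : Prop := ∀ (k s T : ℕ) (g : List (Fin k) → ℝ) (f : List (List (Fin k)) → ℝ) (c : ℝ),
  0 < k → IsDens k s g → 0 ≤ c →
  (∀ (l₁ l₂ : List (List (Fin k))) (w w' : List (Fin k)), l₁.length + l₂.length + 1 = T →
    (∀ u ∈ l₁, u.length = s) → (∀ u ∈ l₂, u.length = s) → w.length = s → w'.length = s →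
    |f (l₁ ++ w :: l₂) - f (l₁ ++ w' :: l₂)| ≤ c) →
  ∀ t : ℝ, Exc k s g T (fun xs => Real.exp (t * (f xs - Exc k s g T f))) ≤
    Real.exp (t ^ 2 * c ^ 2 * T / 8)

/-- **MCD**: bounded differences for a function of two uniform words. -/
def Stmt_MCD : Prop := ∀ (k a b : ℕ) (f : List (Fin k) → List (Fin k) → ℝ) (c : ℝ), 0 < k → 0 < c →
  (∀ x x' y, x.length = a → x'.length = a → y.length = b →
    (∃ l₁ l₂ e e', x = l₁ ++ e :: l₂ ∧ x' = l₁ ++ e' :: l₂) → |f x y - f x' y| ≤ c) →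
  (∀ x y y', x.length = a → y.length = b → y'.length = b →
    (∃ l₁ l₂ e e', y = l₁ ++ e :: l₂ ∧ y' = l₁ ++ e' :: l₂) → |f x y - f x y'| ≤ c) →
  ∀ t : ℝ, 0 ≤ t →
    (Ex k a fun x => Ex k b fun y =>
      ind ((Ex k a fun x => Ex k b fun y => f x y) + t ≤ f x y)) ≤
        Real.exp (-(2 * t ^ 2 / (c ^ 2 * (a + b)))) ∧
    (Ex k a fun x => Ex k b fun y =>
      ind (f x y ≤ (Ex k a fun x => Ex k b fun y => f x y) - t)) ≤
        Real.exp (-(2 * t ^ 2 / (c ^ 2 * (a + b))))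

/-- **LIP**: changing one letter changes `L` by at most one. -/
def Stmt_LIP : Prop := ∀ (k : ℕ) (l₁ l₂ y : List (Fin k)) (e e' : Fin k),
  |(L (l₁ ++ e :: l₂) y : ℝ) - L (l₁ ++ e' :: l₂) y| ≤ 1

/-- Hamming distance at most `h` -/
def Ham {k : ℕ} (x x' : List (Fin k)) (h : ℕ) : Prop :=
  x.length = x'.length ∧ ((x.zip x').filter fun p => p.1 ≠ p.2).length ≤ h

/-- **BLOW**: blow-up of a set of words. -/
def Stmt_BLOW : Prop := ∀ (k n h : ℕ) (A : List (Fin k) → Prop) (δ : ℝ), 0 < k → 0 < δ → δ ≤ 1 →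
  δ ≤ (Ex k n fun x => ind (A x)) → √(n * Real.log (1 / δ) / 2) ≤ h →
  (Ex k n fun x => ind (¬ ∃ x', A x' ∧ x'.length = n ∧ Ham x x' h)) ≤
    Real.exp (-(2 * (h - √(n * Real.log (1 / δ) / 2)) ^ 2 / n))

/-! ### counting windows -/

/-- **CU** (content union bound): if the pairs (cell, window) of every shape are bad with
probability at most `exp (-η s)`, then with probability at least `1 - exp (-T)` no path has more than
`ε T` bad pairs; the cells may have a density `≤ 2`. -/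
def Stmt_CU : Prop := ∀ ε η : ℝ, 0 < ε → 0 < η → ∀ V : ℕ, ∀ᶠ s : ℕ in atTop,
  ∀ (k : ℕ) (g : List (Fin k) → ℝ) (bad : List (Fin k) → List (Fin k) → Prop), 0 < k →
  IsDens k s g → (∀ w, w.length = s → g w ≤ 2) →
  (∀ c : ℕ, (Ex k s fun x => Ex k c fun v => ind (bad x v)) ≤ Real.exp (-(η * s))) →
  ∀ T b : ℕ, 0 < T → b ≤ V * s * T →
    (Exc k s g T fun xs => Ex k b fun y => ind (∃ vs : List (List (Fin k)), vs.length = T ∧
      vs.flatten = y ∧ ε * T ≤ (List.zipWith (fun x v => ind (bad x v)) xs vs).sum)) ≤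
    Real.exp (-(T : ℝ))

/-- **CHI**: Cauchy-Schwarz change of measure. -/
def Stmt_CHI : Prop := ∀ (k s T : ℕ) (g : List (Fin k) → ℝ) (κ : ℝ)
  (A : List (List (Fin k)) → ℝ), 0 < k → IsDens k s g → (Ex k s fun w => g w ^ 2) ≤ 1 + κ → 0 ≤ κ →
  (∀ xs, 0 ≤ A xs ∧ A xs ≤ 1) → (Exc k s g T A) ^ 2 ≤ (1 + κ) ^ T * Exs k s T A

/-- **DPI**: data processing for an event: `P(A) ≥ exp (-(D(Q|P) + log 2) / Q(A))`. -/
def Stmt_DPI : Prop := ∀ (Ω : Type) [Fintype Ω] (P Q : Ω → ℝ) (A : Ω → Prop) [DecidablePred A]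
  (D : ℝ), (∀ i, 0 < P i) → (∀ i, 0 ≤ Q i) → ∑ i, P i = 1 → ∑ i, Q i = 1 →
  (∑ i, Q i * Real.log (Q i / P i)) ≤ D → 0 < (∑ i, if A i then Q i else 0) →
  Real.exp (-((D + Real.log 2) / ∑ i, if A i then Q i else 0)) ≤ ∑ i, if A i then P i else 0

/-- **SUP**: support lemma for superadditive functions on `ℕ × ℕ`. -/
def Stmt_SUP : Prop := ∀ (G : ℕ → ℕ → ℝ) (c B : ℝ),
  (∀ a b a' b' : ℕ, G a b + G a' b' ≤ G (a + a') (b + b')) →
  (∀ a b, |G a b| ≤ B * (a + b)) → (∀ n : ℕ, G n n ≤ c * n) →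
  ∃ p : ℝ, ∀ a b : ℕ, G a b ≤ p * a + (c - p) * b

/-! ### facts on `Phi` -/

/-- **PHI** -/
structure PhiFacts (k : ℕ) : Prop where
  nonneg : ∀ a b : ℝ, 0 ≤ Phi k a b
  mono : ∀ a a' b b' : ℝ, a ≤ a' → b ≤ b' → Phi k a b ≤ Phi k a' b'
  comm : ∀ a b : ℝ, Phi k a b = Phi k b a
  superadd : ∀ a b a' b' : ℝ, 0 ≤ a → 0 ≤ b → 0 ≤ a' → 0 ≤ b' →
    Phi k a b + Phi k a' b' ≤ Phi k (a + a') (b + b')
  hom : ∀ t a b : ℝ, 0 ≤ t → 0 ≤ a → 0 ≤ b → Phi k (t * a) (t * b) = t * Phi k a b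
  le_left : ∀ a b : ℝ, 0 ≤ a → 0 ≤ b → Phi k a b ≤ a
  F_le : ∀ a b : ℕ, F k a b ≤ Phi k a b
  lim : ∀ a b : ℝ, 0 ≤ a → 0 ≤ b →
    Tendsto (fun n : ℕ => F k ⌊(n : ℝ) * a⌋₊ ⌊(n : ℝ) * b⌋₊ / (n : ℝ)) atTop (𝓝 (Phi k a b))
  lip : ∀ a b h : ℝ, 0 ≤ a → 0 ≤ b → 0 ≤ h → Phi k (a + h) b ≤ Phi k a b + h
  line : ∀ a b : ℝ, 0 ≤ a → 0 ≤ b → Phi k a b ≤ al k * (a + b)
  gam_pos : 0 < gam k
  gam_lt : gam k < 1
  gam_eq : Tendsto (fun n : ℕ => EL k n / n) atTop (𝓝 (gam k))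
  sat : ∀ v : ℝ, k ≤ v → Phi k 1 v = 1
  notsat : ∀ v : ℝ, 0 ≤ v → v < k → Phi k 1 v < 1
  /-- left derivative `0` at `v = k` -/
  der : ∀ η : ℝ, 0 < η → ∃ δ₀ : ℝ, 0 < δ₀ ∧ ∀ δ : ℝ, 0 ≤ δ → δ ≤ δ₀ → 1 - η * δ ≤ Phi k 1 (k - δ)
  rho_one : 1 ≤ rho k
  rho_lt : rho k < k
  flat_iff : ∀ a b : ℝ, 0 ≤ a → 0 ≤ b → (Flat k a b ↔ b ≤ rho k * a ∧ a ≤ rho k * b)
  /-- linear deficit outside of the flat cone -/
  deficit : ∀ ε : ℝ, 0 < ε → ∃ c : ℝ, 0 < c ∧ ∀ a b : ℝ, 0 ≤ a → (rho k + ε) * a ≤ b →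
    Phi k a b ≤ (al k - c) * (a + b)

def Stmt_PHI : Prop := ∀ k : ℕ, 2 ≤ k → PhiFacts k

/-- **DIR** (hugging, deterministic): windows of a path of almost maximal value near the column
rich ray. -/
def Stmt_DIR : Prop := ∀ (k : ℕ), 2 ≤ k → PhiFacts k → ∀ ε : ℝ, 0 < ε → ∃ δ : ℝ, 0 < δ ∧
  ∀ (T : ℕ) (s : ℝ) (c l : Fin T → ℝ), 0 < s → (∀ i, 0 ≤ c i) → (∀ i, l i ≤ s ∧ l i ≤ c i) →
  (∑ i, ind (Phi k s (c i) + δ * s < l i)) ≤ δ * T →
  al k * (s * T + ∑ i, c i) - δ * s * T ≤ ∑ i, l i → (rho k - δ) * s * T ≤ ∑ i, c i →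
  (∑ i, ind (ε * s < |c i - rho k * s|)) ≤ ε * T ∧
  (∑ i, ind (l i < Phi k s (c i) - ε * s)) ≤ ε * T ∧
  (∑ i, ind (ε * s < |c i - rho k * s|) * c i) ≤ ε * s * T

/-- **LC** (local comparison): a word `o^s` in a box of `2 K + 1` cells is worse than a random
cell, except near the saturated directions. -/
def Stmt_LC : Prop := ∀ (k : ℕ), 2 ≤ k → PhiFacts k → ∀ K : ℕ, 1 ≤ K → ∀ δ : ℝ, 0 < δ → ∃ c₁ : ℝ,
  0 < c₁ ∧ ∀ v h : ℝ, 0 ≤ h → h ≤ v → (1 / k + δ) * (2 * K + 1) ≤ v → v ≤ (k - δ) * (2 * K + 1) →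
    Phi k (2 * K) (v - h) + min 1 (h / k) + c₁ ≤ Phi k (2 * K + 1) v

/-- **GLUE**: the frozen statement from the main theorem (see `Pool/Statements/S19609.lean`). -/
def Stmt_GLUE : Prop := (∀ k : ℕ, 2 ≤ k → ¬ Rigid k) → ∀ k : ℕ,
      Asymptotics.IsTheta Filter.atTop
        (fun n : ℕ =>
          ProbabilityTheory.variance
            (fun p : (Fin n → Fin (k + 2)) × (Fin n → Fin (k + 2)) =>
              (((sSup {m : ℕ | ∃ l : List (Fin (k + 2)), l.length = m ∧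
                  l.Sublist (List.ofFn p.1) ∧ l.Sublist (List.ofFn p.2)}) : ℕ) : ℝ))
            (PMF.uniformOfFintype
              ((Fin n → Fin (k + 2)) × (Fin n → Fin (k + 2)))).toMeasure)
        (fun n : ℕ => (n : ℝ))

end

end Pool.Agent.LCSV
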