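import Pool.Agent.Work.MP_bec1e1_lv_helper15.LUInterface

/-!
# LU, block ONE: RFL at one length, from BLK, MULT, COL, DPIU, BLOW
-/

set_option autoImplicit false
set_option maxHeartbeats 400000

open Filter Topology
open scoped BigOperators

namespace Pool.Agent.LCSV

open Pool.Agent.LCSE

noncomputable section

namespace LUOne

/-! ### indicators -/

lemma ind_true {P : Prop} (h : P) : ind P = 1 := by
  unfold ind; rw [if_pos h]

lemma ind_false {P : Prop} (h : ¬ P) : ind P = 0 := by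
  unfold ind; rw [if_neg h]

lemma ind_nonneg (P : Prop) : 0 ≤ ind P := by
  by_cases h : P
  · rw [ind_true h]; norm_num
  · rw [ind_false h]

lemma ind_le_one (P : Prop) : ind P ≤ 1 := by
  by_cases h : P
  · rw [ind_true h]
  · rw [ind_false h]; norm_num

lemma ind_mono {P Q : Prop} (h : P → Q) : ind P ≤ ind Q := by
  by_cases hP : P
  · rw [ind_true hP, ind_true (h hP)]
  · rw [ind_false hP]; exact ind_nonneg _

/-! ### `PW` -/

section PWs

variable {ι C : Type} [Fintype ι] [DecidableEq ι] [Fintype C]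

lemma PW_mono {w : ι → C → ℝ} (hw : ∀ i c, 0 ≤ w i c) {f g : (ι → C) → ℝ}
    (h : ∀ c, f c ≤ g c) : PW w f ≤ PW w g := by
  unfold PW
  exact Finset.sum_le_sum fun c _ =>
    mul_le_mul_of_nonneg_left (h c) (Finset.prod_nonneg fun i _ => hw i _)

lemma PW_add (w : ι → C → ℝ) (f g : (ι → C) → ℝ) :
    PW w (fun c => f c + g c) = PW w f + PW w g := by
  unfold PW
  rw [← Finset.sum_add_distrib]
  exact Finset.sum_congr rfl fun c _ => by ring

lemma PW_const_mul (w : ι → C → ℝ) (a : ℝ) (f : (ι → C) → ℝ) :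
    PW w (fun c => a * f c) = a * PW w f := by
  unfold PW
  rw [Finset.mul_sum]
  exact Finset.sum_congr rfl fun c _ => by ring

lemma PW_prod (w : ι → C → ℝ) (u : ι → C → ℝ) :
    PW w (fun c => ∏ i, u i (c i)) = ∏ i, ∑ c, w i c * u i c := by
  unfold PW
  rw [Finset.prod_univ_sum, Fintype.piFinset_univ]
  exact Finset.sum_congr rfl fun c _ => by rw [← Finset.prod_mul_distrib]

lemma PW_const {w : ι → C → ℝ} (hw : ∀ i, ∑ c, w i c = 1) (a : ℝ) :
    PW w (fun _ => a) = a := by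
  have h := PW_prod w (fun _ _ => (1 : ℝ))
  simp only [Finset.prod_const_one, mul_one, hw] at h
  have h2 := PW_const_mul w a (fun _ => (1 : ℝ))
  simp only [mul_one] at h2
  rw [h2, h, mul_one]

lemma PW_nonneg {w : ι → C → ℝ} (hw : ∀ i c, 0 ≤ w i c) {f : (ι → C) → ℝ}
    (h : ∀ c, 0 ≤ f c) : 0 ≤ PW w f := by
  unfold PW
  exact Finset.sum_nonneg fun c _ => mul_nonneg (Finset.prod_nonneg fun i _ => hw i _) (h c)

lemma PW_sum {κ : Type} (s : Finset κ) (w : ι → C → ℝ) (f : κ → (ι → C) → ℝ) :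
    PW w (fun c => ∑ j ∈ s, f j c) = ∑ j ∈ s, PW w (f j) := by
  unfold PW
  rw [Finset.sum_comm]
  exact Finset.sum_congr rfl fun c _ => by rw [Finset.mul_sum]

lemma PW_Ex {k n : ℕ} (w : ι → C → ℝ) (f : (ι → C) → List (Fin k) → ℝ) :
    PW w (fun c => Ex k n (f c)) = Ex k n fun V => PW w fun c => f c V := by
  unfold PW
  rw [Ex_finset_sum]
  exact Finset.sum_congr rfl fun c _ => by rw [Ex_const_mul]

end PWs

/-! ### labels -/

lemma bw_nonneg {θ : ℝ} (h0 : 0 ≤ θ) (h1 : θ ≤ 1) (b : Bool) : 0 ≤ bw θ b := by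
  unfold bw; split_ifs <;> linarith

lemma bw_sum (θ : ℝ) : ∑ b : Bool, bw θ b = 1 := by
  simp [bw]

lemma lab_card (T : ℕ) (bs : Fin T → Bool) :
    ((lab bs).card : ℝ) = ∑ i, (if bs i = true then (1 : ℝ) else 0) := by
  unfold lab
  rw [Finset.card_filter]
  push_cast
  rfl

/-- second moment of the number of labels -/
lemma lab_var (T : ℕ) (θ : ℝ) :
    PW (fun _ : Fin T => bw θ) (fun bs => (((lab bs).card : ℝ) - θ * T) ^ 2) =
      T * (θ * (1 - θ)) := by
  set ξ : Bool → ℝ := fun b => (if b = true then (1 : ℝ) else 0) - θ with hξ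
  have e1 : ∀ bs : Fin T → Bool, (((lab bs).card : ℝ) - θ * T) ^ 2 =
      ∑ i, ∑ j, ξ (bs i) * ξ (bs j) := by
    intro bs
    rw [lab_card, ← Finset.sum_mul_sum, sq]
    have : ∑ i, ξ (bs i) = ∑ i, (if bs i = true then (1 : ℝ) else 0) - θ * T := by
      simp only [hξ, Finset.sum_sub_distrib, Finset.sum_const, Finset.card_univ,
        Fintype.card_fin, nsmul_eq_mul]
      ring
    rw [this]
  have e2 : ∀ i j : Fin T, PW (fun _ : Fin T => bw θ) (fun bs => ξ (bs i) * ξ (bs j)) =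
      if i = j then θ * (1 - θ) else 0 := by
    intro i j
    have h := PW_prod (fun _ : Fin T => bw θ)
      (fun l b => (if l = i then ξ b else 1) * (if l = j then ξ b else 1))
    have e3 : ∀ bs : Fin T → Bool, ∏ l, ((if l = i then ξ (bs l) else 1) *
        (if l = j then ξ (bs l) else 1)) = ξ (bs i) * ξ (bs j) := by
      intro bs
      rw [Finset.prod_mul_distrib, Finset.prod_ite_eq' , Finset.prod_ite_eq']
      simp
    simp only [e3] at h
    rw [h]
    have hx1 : ∑ b : Bool, bw θ b * ξ b = 0 := by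
      simp [bw, hξ]; ring
    by_cases hij : i = j
    · subst hij
      rw [if_pos rfl, Finset.prod_eq_single i]
      · simp [bw, hξ]; ring
      · intro l _ hl
        simp only [hl, if_false, mul_one]
        exact bw_sum θ
      · simp
    · rw [if_neg hij]
      apply Finset.prod_eq_zero (Finset.mem_univ i)
      simp only [if_true, hij, if_false, mul_one]
      exact hx1
  simp only [e1]
  rw [PW_sum]
  simp only [PW_sum, e2, Finset.sum_ite_eq, Finset.mem_univ, if_true, Finset.sum_const,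
    Finset.card_univ, Fintype.card_fin, nsmul_eq_mul]

lemma lab_dev {T : ℕ} {θ : ℝ} (h0 : 0 < θ) (h1 : θ ≤ 1) (hT : 10000 ≤ θ * T) :
    PW (fun _ : Fin T => bw θ) (fun bs => ind (¬ (9 / 10 * (θ * T) ≤ (lab bs).card ∧
      ((lab bs).card : ℝ) ≤ 11 / 10 * (θ * T)))) ≤ 1 / 100 := by
  have hpt : ∀ bs : Fin T → Bool, ind (¬ (9 / 10 * (θ * T) ≤ (lab bs).card ∧
      ((lab bs).card : ℝ) ≤ 11 / 10 * (θ * T))) ≤
      100 / (θ * T) ^ 2 * (((lab bs).card : ℝ) - θ * T) ^ 2 := by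
    intro bs
    by_cases h : 9 / 10 * (θ * T) ≤ (lab bs).card ∧ ((lab bs).card : ℝ) ≤ 11 / 10 * (θ * T)
    · rw [ind_false (not_not.2 h)]
      positivity
    · rw [ind_true h]
      have hpos : 0 < θ * T := by linarith
      rw [div_mul_eq_mul_div, le_div_iff₀ (by positivity), one_mul]
      rw [not_and_or, not_le, not_le] at h
      rcases h with h | h
      · nlinarith
      · nlinarith
  refine (PW_mono (fun _ => bw_nonneg h0.le h1) hpt).trans ?_
  rw [PW_const_mul, lab_var]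
  have hpos : 0 < θ * T := by linarith
  have : (T : ℝ) * (θ * (1 - θ)) ≤ θ * T := by
    have hT0 : (0 : ℝ) ≤ T := Nat.cast_nonneg _
    nlinarith [mul_nonneg hT0 (mul_nonneg h0.le h0.le)]
  calc 100 / (θ * T) ^ 2 * ((T : ℝ) * (θ * (1 - θ))) ≤ 100 / (θ * T) ^ 2 * (θ * T) := by
        apply mul_le_mul_of_nonneg_left this (by positivity)
    _ = 100 / (θ * T) := by field_simp
    _ ≤ 1 / 100 := by
        rw [div_le_div_iff₀ hpos (by norm_num)]
        linarith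

lemma labB_card {T : ℕ} (R : ℕ) (bs : Fin T → Bool) : (labB R bs).card = R * (lab bs).card := by
  have : labB R bs = (lab bs) ×ˢ (Finset.univ : Finset (Fin R)) := by
    ext ⟨i, j⟩
    simp [labB, lab]
  rw [this, Finset.card_product, Finset.card_univ, Fintype.card_fin, mul_comm]

/-! ### entropy is nonnegative -/

lemma KL_nonneg {C : Type} [Fintype C] {q p : C → ℝ} (hq : ∀ c, 0 ≤ q c) (hp : ∀ c, 0 < p c)
    (h1 : ∑ c, q c = 1) (h2 : ∑ c, p c = 1) : 0 ≤ KL q p := by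
  unfold KL
  have h : ∀ c, q c - p c ≤ q c * Real.log (q c / p c) := by
    intro c
    rcases (hq c).eq_or_lt with h | h
    · rw [← h]; simp [(hp c).le]
    · have h3 := Real.log_le_sub_one_of_pos (div_pos (hp c) h)
      have h4 : Real.log (q c / p c) = - Real.log (p c / q c) := by
        rw [← Real.log_inv, inv_div]
      rw [h4]
      have h5 : q c * (p c / q c - 1) = p c - q c := by field_simp
      nlinarith
  have := Finset.sum_le_sum fun c (_ : c ∈ Finset.univ) => h c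
  rw [Finset.sum_sub_distrib, h1, h2] at this
  linarith

/-! ### binomial sums -/

lemma binom_sum_le {M r : ℕ} {t : ℝ} (h0 : 0 < t) (h1 : t ≤ 1) :
    (∑ i ∈ Finset.range (r + 1), (M.choose i : ℝ)) ≤
      Real.exp (r * Real.log (1 / t) + t * M) := by
  have hs : (∑ i ∈ Finset.range (r + 1), (M.choose i : ℝ) * t ^ r) ≤ (1 + t) ^ M := by
    have h2 : ∀ i ∈ Finset.range (r + 1), (M.choose i : ℝ) * t ^ r ≤ (M.choose i : ℝ) * t ^ i := by
      intro i hi
      apply mul_le_mul_of_nonneg_left _ (Nat.cast_nonneg _)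
      exact pow_le_pow_of_le_one h0.le h1 (Nat.lt_succ_iff.1 (Finset.mem_range.1 hi))
    refine (Finset.sum_le_sum h2).trans ?_
    have h3 : (1 + t) ^ M = ∑ i ∈ Finset.range (M + 1), (M.choose i : ℝ) * t ^ i := by
      rw [add_comm, add_pow]
      exact Finset.sum_congr rfl fun i _ => by rw [one_pow]; ring
    rw [h3]
    rcases le_total r M with hrM | hrM
    · apply Finset.sum_le_sum_of_subset_of_nonneg
      · exact Finset.range_subset_range.2 (by omega)
      · intro i _ _; positivity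
    · apply le_of_eq
      symm
      apply Finset.sum_subset (Finset.range_subset_range.2 (by omega))
      intro i _ hi
      rw [Finset.mem_range, not_lt] at hi
      rw [Nat.choose_eq_zero_of_lt (by omega)]
      simp
  rw [← Finset.sum_mul] at hs
  have h4 : (1 + t) ^ M ≤ Real.exp (t * M) := by
    have : 1 + t ≤ Real.exp t := by linarith [Real.add_one_le_exp t]
    calc (1 + t) ^ M ≤ (Real.exp t) ^ M := pow_le_pow_left₀ (by positivity) this M
      _ = Real.exp (t * M) := by rw [← Real.exp_nat_mul]; congr 1; ring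
  have h5 : Real.exp (r * Real.log (1 / t)) * t ^ r = 1 := by
    rw [one_div, Real.log_inv, show (r : ℝ) * -Real.log t = -((r : ℝ) * Real.log t) by ring,
      Real.exp_neg, mul_comm (r : ℝ), Real.exp_mul, Real.exp_log h0, Real.rpow_natCast]
    exact inv_mul_cancel₀ (pow_ne_zero _ h0.ne')
  have h6 : (∑ i ∈ Finset.range (r + 1), (M.choose i : ℝ)) * t ^ r ≤
      Real.exp (r * Real.log (1 / t) + t * M) * t ^ r := by
    refine hs.trans (h4.trans ?_)
    rw [Real.exp_add, mul_assoc, mul_comm (Real.exp (t * M)), ← mul_assoc, h5, one_mul]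
  exact le_of_mul_le_mul_right h6 (by positivity)

/-! ### Hamming distance and `L` -/

lemma L_ham {k : ℕ} : ∀ (y y' : List (Fin k)), y.length = y'.length → ∀ u : List (Fin k),
    L u y ≤ L u y' + ((y.zip y').filter fun p => p.1 ≠ p.2).length := by
  intro y
  induction y with
  | nil =>
    intro y' h u
    simp
  | cons a y ih =>
    intro y' h u
    cases y' with
    | nil => simp at h
    | cons b y' =>
      have h' : y.length = y'.length := by simpa using h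
      rw [List.zip_cons_cons]
      by_cases hab : a = b
      · subst hab
        rw [List.filter_cons_of_neg (by simp)]
        apply L_le
        intro l h1 h2
        rcases List.sublist_cons_iff.mp h2 with h3 | ⟨r, rfl, h3⟩
        · exact (le_L h1 h3).trans ((ih y' h' u).trans
            (Nat.add_le_add_right (L_cons_right a u y') _))
        · have h4 := ih y' h' r
          have h5 : r.length ≤ L r y := le_L (List.Sublist.refl _) h3
          obtain ⟨l', hl', h6, h7⟩ := exists_L r y'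
          have h8 : (a :: l').length ≤ L u (a :: y') :=
            le_L ((h6.cons_cons a).trans h1) (h7.cons_cons a)
          simp only [List.length_cons] at h8 ⊢
          omega
      · rw [List.filter_cons_of_pos (by simpa using hab), List.length_cons]
        have h4 := L_cons_right_le a u y
        have h5 := ih y' h' u
        have h6 := L_cons_right b u y'
        omega

/-! ### the main part -/

section main

variable {k n₁ T R : ℕ} {θ Γ D a n₀ b₀ : ℝ} {C Ω : Type} [Fintype C] [Fintype Ω] [DecidableEq C]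

/-- mean over base and labels -/
def EP (U : UnitData k n₁ T R θ Γ D a n₀ b₀ C Ω) (f : Ω → (Fin T → Bool) → ℝ) : ℝ :=
  ∑ ω, U.P ω * PW (fun _ : Fin T => bw θ) fun bs => f ω bs

variable (U : UnitData k n₁ T R θ Γ D a n₀ b₀ C Ω)

lemma EP_mono (h0 : 0 ≤ θ) (h1 : θ ≤ 1) {f g : Ω → (Fin T → Bool) → ℝ}
    (h : ∀ ω bs, f ω bs ≤ g ω bs) : EP U f ≤ EP U g :=
  Finset.sum_le_sum fun ω _ => mul_le_mul_of_nonneg_left
    (PW_mono (fun _ => bw_nonneg h0 h1) (h ω)) (U.P_nonneg ω)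

lemma EP_add (f g : Ω → (Fin T → Bool) → ℝ) :
    EP U (fun ω bs => f ω bs + g ω bs) = EP U f + EP U g := by
  unfold EP
  rw [← Finset.sum_add_distrib]
  exact Finset.sum_congr rfl fun ω _ => by rw [PW_add]; ring

lemma EP_const_mul (c : ℝ) (f : Ω → (Fin T → Bool) → ℝ) :
    EP U (fun ω bs => c * f ω bs) = c * EP U f := by
  unfold EP
  rw [Finset.mul_sum]
  exact Finset.sum_congr rfl fun ω _ => by rw [PW_const_mul]; ring

lemma EP_label (f : (Fin T → Bool) → ℝ) :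
    EP U (fun _ bs => f bs) = PW (fun _ : Fin T => bw θ) f := by
  unfold EP
  rw [← Finset.sum_mul, U.P_sum, one_mul]

lemma EP_const (c : ℝ) : EP U (fun _ _ => c) = c := by
  rw [EP_label]
  exact PW_const (fun _ => bw_sum θ) c

lemma EP_Ex (f : Ω → (Fin T → Bool) → List (Fin k) → ℝ) :
    EP U (fun ω bs => Ex k n₁ (f ω bs)) = Ex k n₁ fun V => EP U fun ω bs => f ω bs V := by
  unfold EP
  rw [Ex_finset_sum]
  exact Finset.sum_congr rfl fun ω _ => by rw [PW_Ex, Ex_const_mul]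

lemma EP_nonneg (h0 : 0 ≤ θ) (h1 : θ ≤ 1) {f : Ω → (Fin T → Bool) → ℝ}
    (h : ∀ ω bs, 0 ≤ f ω bs) : 0 ≤ EP U f := by
  have := EP_mono U h0 h1 (f := fun _ _ => 0) h
  rwa [EP_const] at this

lemma S_nonneg (c : C) : 0 ≤ U.S c := (Real.exp_pos _).le.trans (U.S_low c)

lemma S_pos (c : C) : 0 < U.S c := (Real.exp_pos _).trans_le (U.S_low c)

lemma PWS_le_one {f : (Fin T × Fin R → C) → ℝ} (h : ∀ c, f c ≤ 1) :
    PW (fun _ => U.S) f ≤ 1 := by
  have := PW_mono (fun _ : Fin T × Fin R => S_nonneg U) h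
  rwa [PW_const (fun _ => U.S_sum)] at this

lemma PWκ_le_one (ω : Ω) (V : List (Fin k)) {f : (Fin T × Fin R → C) → ℝ} (h : ∀ c, f c ≤ 1) :
    PW (U.κ ω V) f ≤ 1 := by
  have := PW_mono (U.κ_nonneg ω V) h
  rwa [PW_const (U.κ_sum ω V)] at this

/-- probability of `B` for a given pattern -/
def SB (B : List (Fin k) → Prop) (ω : Ω) (bs : Fin T → Bool) : ℝ :=
  PW (fun _ : Fin T × Fin R => U.S) fun c => ind (B (U.word ω bs c))

lemma quarter (h0 : 0 ≤ θ) (h1 : θ ≤ 1) (B : List (Fin k) → Prop)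
    (hB : 1 / 2 ≤ (Ex k n₁ fun u => ind (B u))) :
    1 / 3 ≤ EP U fun ω bs => ind (1 / 4 ≤ SB U B ω bs) := by
  have e := U.unif fun u => ind (B u)
  have e' : EP U (SB U B) = Ex k n₁ fun u => ind (B u) := e
  have hpt : ∀ ω bs, SB U B ω bs ≤ 1 / 4 + 3 / 4 * ind (1 / 4 ≤ SB U B ω bs) := by
    intro ω bs
    by_cases h : 1 / 4 ≤ SB U B ω bs
    · rw [ind_true h]
      have : SB U B ω bs ≤ 1 := PWS_le_one U fun c => ind_le_one _
      linarith
    · rw [ind_false h]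
      linarith
  have h2 := EP_mono U h0 h1 hpt
  rw [EP_add, EP_const, EP_const_mul, e'] at h2
  linarith

/-- the good patterns -/
def Cal (B : List (Fin k) → Prop) (ω : Ω) (bs : Fin T → Bool) : Prop :=
  1 / 4 ≤ SB U B ω bs ∧
    (9 / 10 * (θ * T) ≤ (lab bs).card ∧ ((lab bs).card : ℝ) ≤ 11 / 10 * (θ * T))

lemma depB (B : List (Fin k) → Prop) (ω : Ω) (bs : Fin T → Bool) :
    DepOn (labB R bs) fun c => B (U.word ω bs c) := by
  intro c c' h
  dsimp only
  rw [U.dep ω bs c c' fun j hj => h j (by simp [labB, hj])]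

lemma dH_symm_dep {ι C' : Type} [DecidableEq C'] (Λ : Finset ι) (A : (ι → C') → Prop) (r : ℕ) :
    DepOn Λ fun c => ∃ c', A c' ∧ dH Λ c c' ≤ r := by
  have key : ∀ c c' : ι → C', (∀ i ∈ Λ, c i = c' i) → (∃ c'', A c'' ∧ dH Λ c c'' ≤ r) →
      ∃ c'', A c'' ∧ dH Λ c' c'' ≤ r := by
    rintro c c' h ⟨c'', h1, h2⟩
    refine ⟨c'', h1, ?_⟩
    have : dH Λ c' c'' = dH Λ c c'' := by
      unfold dH
      congr 1
      apply Finset.filter_congr
      intro i hi
      rw [h i hi]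
    rw [this]
    exact h2
  intro c c' h
  exact ⟨key c c' h, key c' c fun i hi => (h i hi).symm⟩

/-- the blow-up estimate for good patterns -/
lemma blow_pattern (hBLK : Stmt_BLK) {ρ : ℝ} (hρ0 : 0 < ρ) (hρ1 : ρ ≤ 1 / 2)
    (hθT : 10000 ≤ θ * T) (hR : 1 ≤ R) (hx1 : 16 / ρ ^ 2 ≤ θ * T * R)
    (B : List (Fin k) → Prop) (ω : Ω) (bs : Fin T → Bool) (hC : Cal U B ω bs) :
    PW (fun _ : Fin T × Fin R => U.S) (fun c => ind (¬ ∃ c', B (U.word ω bs c') ∧
      dH (labB R bs) c c' ≤ ⌊ρ * (θ * T * R)⌋₊)) ≤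
      Real.exp (-(ρ ^ 2 / 4 * R * (lab bs).card)) := by
  obtain ⟨h1, h2, h3⟩ := hC
  set x : ℝ := θ * T * R with hx
  have hR' : (1 : ℝ) ≤ R := by exact_mod_cast hR
  have hx16 : 16 ≤ ρ ^ 2 * x := by
    rw [div_le_iff₀ (by positivity)] at hx1
    linarith
  have hx0 : 0 < x := by
    by_contra h
    push Not at h
    nlinarith [sq_nonneg ρ]
  have hcard : ((labB R bs).card : ℝ) = R * (lab bs).card := by
    rw [labB_card]; push_cast; ring
  set M : ℝ := ((labB R bs).card : ℝ) with hM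
  have hM1 : M ≤ 11 / 10 * x := by
    rw [hcard, hx]
    have := mul_le_mul_of_nonneg_left h3 (by linarith : (0 : ℝ) ≤ R)
    linarith
  have hM0 : 0 < M := by
    rw [hcard]
    have : (0 : ℝ) < (lab bs).card := by linarith
    positivity
  have hlog : Real.log (1 / (1 / 4 : ℝ)) ≤ 1.4 := by
    have : (1 / (1 / 4 : ℝ)) = 2 ^ 2 := by norm_num
    rw [this, Real.log_pow]
    have := Real.log_two_lt_d9
    push_cast
    linarith
  have hlog0 : 0 ≤ Real.log (1 / (1 / 4 : ℝ)) := Real.log_nonneg (by norm_num)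
  have hsq : √(M * Real.log (1 / (1 / 4)) / 2) ≤ ρ * x / 4 := by
    apply Real.sqrt_le_iff.2
    refine ⟨by positivity, ?_⟩
    have h4 : M * Real.log (1 / (1 / 4)) / 2 ≤ x := by
      have : M * Real.log (1 / (1 / 4)) ≤ (11 / 10 * x) * 1.4 :=
        mul_le_mul hM1 hlog hlog0 (by positivity)
      linarith
    have h5 : x ≤ (ρ * x / 4) ^ 2 := by
      have : (ρ * x / 4) ^ 2 = (ρ ^ 2 * x) * x / 16 := by ring
      rw [this]
      nlinarith
    linarith
  have hρx : 4 ≤ ρ * x := by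
    have : ρ ^ 2 * x = ρ * (ρ * x) := by ring
    rw [this] at hx16
    nlinarith [mul_pos hρ0 hx0]
  have hfl : ρ * x - 1 ≤ (⌊ρ * x⌋₊ : ℝ) := (Nat.sub_one_lt_floor _).le
  have hr : ρ * x / 2 ≤ (⌊ρ * x⌋₊ : ℝ) - √(M * Real.log (1 / (1 / 4)) / 2) := by linarith
  have hlabpos : 0 < (labB R bs).card := by
    have := hM0
    rw [hM] at this
    exact_mod_cast this
  have h6 := hBLK (Fin T × Fin R) C U.S (labB R bs) (fun c => B (U.word ω bs c)) (1 / 4)
    ⌊ρ * x⌋₊ (S_nonneg U) U.S_sum (depB U B ω bs) (by norm_num) (by norm_num) h1 hlabpos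
    (by linarith [show (0:ℝ) ≤ ρ * x / 2 by positivity])
  refine h6.trans (Real.exp_le_exp.2 (neg_le_neg ?_))
  rw [← hM, show ρ ^ 2 / 4 * (R : ℝ) * ((lab bs).card : ℝ) = ρ ^ 2 / 4 * M by rw [hcard]; ring]
  rw [le_div_iff₀ hM0]
  have h7 : (ρ * x / 2) ^ 2 ≤ ((⌊ρ * x⌋₊ : ℝ) - √(M * Real.log (1 / (1 / 4)) / 2)) ^ 2 :=
    pow_le_pow_left₀ (by positivity) hr 2
  have h8 : M ^ 2 ≤ (11 / 10 * x) ^ 2 := pow_le_pow_left₀ hM0.le hM1 2
  nlinarith [sq_nonneg ρ, sq_nonneg x, mul_nonneg (sq_nonneg ρ) (sq_nonneg x),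
    mul_le_mul_of_nonneg_left h8 (sq_nonneg ρ)]

/-- the event -/
def Ev (B : List (Fin k) → Prop) (r : ℕ) (ω : Ω) (bs : Fin T → Bool) (V : List (Fin k))
    (c : Fin T × Fin R → C) : Prop :=
  Cal U B ω bs ∧ (∃ c', B (U.word ω bs c') ∧ dH (labB R bs) c c' ≤ r) ∧
    gam k * n₁ + Γ / 2 ≤ (L (U.word ω bs c) V : ℝ)

lemma dep_Ev (B : List (Fin k) → Prop) (r : ℕ) (V : List (Fin k)) (ω : Ω) (bs : Fin T → Bool) :
    DepOn (labB R bs) (Ev U B r ω bs V) := by
  intro c c' h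
  unfold Ev
  rw [U.dep ω bs c c' fun j hj => h j (by simp [labB, hj])]
  have := dH_symm_dep (labB R bs) (fun c => B (U.word ω bs c)) r c c' h
  dsimp only at this
  rw [this]

lemma prob_Ev (hk : 0 < k) (h0 : 0 < θ) (h1 : θ ≤ 1) (hθT : 10000 ≤ θ * T)
    (hluck : HPLuck U (1 / 100)) (B : List (Fin k) → Prop)
    (hB : 1 / 2 ≤ (Ex k n₁ fun u => ind (B u))) (r : ℕ)
    (hcol : (EP U fun ω bs => Ex k n₁ fun V => PW (U.κ ω V) fun c =>
      ind (Cal U B ω bs ∧ ¬ ∃ c', B (U.word ω bs c') ∧ dH (labB R bs) c c' ≤ r)) ≤ 1 / 100) :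
    3 / 10 ≤ Ex k n₁ fun V => EP U fun ω bs => PW (U.κ ω V) fun c => ind (Ev U B r ω bs V c) := by
  have hq := quarter U h0.le h1 B hB
  have hlab := lab_dev h0 h1 hθT
  have hpt : ∀ ω bs, ind (1 / 4 ≤ SB U B ω bs) ≤
      (Ex k n₁ fun V => PW (U.κ ω V) fun c => ind (Ev U B r ω bs V c)) +
      (ind (¬ (9 / 10 * (θ * T) ≤ (lab bs).card ∧ ((lab bs).card : ℝ) ≤ 11 / 10 * (θ * T))) +
      ((Ex k n₁ fun V => PW (U.κ ω V) fun c =>
        ind (Cal U B ω bs ∧ ¬ ∃ c', B (U.word ω bs c') ∧ dH (labB R bs) c c' ≤ r)) +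
      (Ex k n₁ fun V => PW (U.κ ω V) fun c =>
        ind ((L (U.word ω bs c) V : ℝ) < gam k * n₁ + Γ / 2)))) := by
    intro ω bs
    have e1 : ind (1 / 4 ≤ SB U B ω bs) = Ex k n₁ fun V => PW (U.κ ω V) fun _ =>
        ind (1 / 4 ≤ SB U B ω bs) := by
      simp only [PW_const (U.κ_sum ω _)]
      rw [Ex_const hk]
    have e2 : ind (¬ (9 / 10 * (θ * T) ≤ (lab bs).card ∧
        ((lab bs).card : ℝ) ≤ 11 / 10 * (θ * T))) = Ex k n₁ fun V => PW (U.κ ω V) fun _ =>
        ind (¬ (9 / 10 * (θ * T) ≤ (lab bs).card ∧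
        ((lab bs).card : ℝ) ≤ 11 / 10 * (θ * T))) := by
      simp only [PW_const (U.κ_sum ω _)]
      rw [Ex_const hk]
    rw [e1, e2, ← Ex_add, ← Ex_add, ← Ex_add]
    refine Ex_mono fun V _ => ?_
    rw [← PW_add, ← PW_add, ← PW_add]
    refine PW_mono (U.κ_nonneg ω V) fun c => ?_
    by_cases h : 1 / 4 ≤ SB U B ω bs
    · rw [ind_true h]
      have n1 := ind_nonneg (Ev U B r ω bs V c)
      have n2 := ind_nonneg (¬ (9 / 10 * (θ * T) ≤ (lab bs).card ∧
        ((lab bs).card : ℝ) ≤ 11 / 10 * (θ * T)))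
      have n3 := ind_nonneg (Cal U B ω bs ∧ ¬ ∃ c', B (U.word ω bs c') ∧
        dH (labB R bs) c c' ≤ r)
      have n4 := ind_nonneg ((L (U.word ω bs c) V : ℝ) < gam k * n₁ + Γ / 2)
      by_cases h2 : 9 / 10 * (θ * T) ≤ (lab bs).card ∧ ((lab bs).card : ℝ) ≤ 11 / 10 * (θ * T)
      · by_cases h3 : ∃ c', B (U.word ω bs c') ∧ dH (labB R bs) c c' ≤ r
        · by_cases h4 : (L (U.word ω bs c) V : ℝ) < gam k * n₁ + Γ / 2
          · rw [ind_true h4]; linarith
          · have : Ev U B r ω bs V c := ⟨⟨h, h2⟩, h3, not_lt.1 h4⟩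
            rw [ind_true this]; linarith
        · have : Cal U B ω bs ∧ ¬ ∃ c', B (U.word ω bs c') ∧ dH (labB R bs) c c' ≤ r :=
            ⟨⟨h, h2⟩, h3⟩
          rw [ind_true this]; linarith
      · have := ind_true h2
        linarith
    · rw [ind_false h]
      have n1 := ind_nonneg (Ev U B r ω bs V c)
      have n2 := ind_nonneg (¬ (9 / 10 * (θ * T) ≤ (lab bs).card ∧
        ((lab bs).card : ℝ) ≤ 11 / 10 * (θ * T)))
      have n3 := ind_nonneg (Cal U B ω bs ∧ ¬ ∃ c', B (U.word ω bs c') ∧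
        dH (labB R bs) c c' ≤ r)
      have n4 := ind_nonneg ((L (U.word ω bs c) V : ℝ) < gam k * n₁ + Γ / 2)
      linarith
  have h2 := EP_mono U h0.le h1 hpt
  rw [EP_add, EP_add, EP_add, EP_label] at h2
  have h3 : (EP U fun ω bs => Ex k n₁ fun V => PW (U.κ ω V) fun c =>
        ind ((L (U.word ω bs c) V : ℝ) < gam k * n₁ + Γ / 2)) ≤ 1 / 100 := hluck
  rw [← EP_Ex]
  linarith

/-- the entropy at `V` -/
def ent (V : List (Fin k)) : ℝ := EP U fun ω bs =>
  ∑ j : Fin T × Fin R, ind (bs j.1 = true) * KL (U.κ ω V j) U.S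

lemma ent_nonneg (h0 : 0 ≤ θ) (h1 : θ ≤ 1) (V : List (Fin k)) : 0 ≤ ent U V :=
  EP_nonneg U h0 h1 fun ω _ => Finset.sum_nonneg fun j _ =>
    mul_nonneg (ind_nonneg _) (KL_nonneg (U.κ_nonneg ω V j) (S_pos U) (U.κ_sum ω V j) U.S_sum)

lemma ent_mean : (Ex k n₁ fun V => ent U V) ≤ D := by
  unfold ent
  rw [← EP_Ex]
  exact U.ent

/-- good `V` -/
def Gd (B : List (Fin k) → Prop) (r : ℕ) (V : List (Fin k)) : Prop :=
  1 / 10 ≤ (EP U fun ω bs => PW (U.κ ω V) fun c => ind (Ev U B r ω bs V c)) ∧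
    ent U V ≤ 10 * D

lemma prob_Gd (hk : 0 < k) (h0 : 0 < θ) (h1 : θ ≤ 1) (hD : 0 < D) (B : List (Fin k) → Prop)
    (r : ℕ) (h : 3 / 10 ≤ Ex k n₁ fun V => EP U fun ω bs => PW (U.κ ω V) fun c =>
      ind (Ev U B r ω bs V c)) : 1 / 10 ≤ Ex k n₁ fun V => ind (Gd U B r V) := by
  have hpt : ∀ V : List (Fin k), V.length = n₁ →
      (EP U fun ω bs => PW (U.κ ω V) fun c => ind (Ev U B r ω bs V c)) ≤
        ind (Gd U B r V) + (1 / 10 + 1 / (10 * D) * ent U V) := by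
    intro V _
    have h2 : (EP U fun ω bs => PW (U.κ ω V) fun c => ind (Ev U B r ω bs V c)) ≤ 1 := by
      have := EP_mono U h0.le h1 (f := fun ω bs => PW (U.κ ω V) fun c =>
        ind (Ev U B r ω bs V c)) (g := fun _ _ => 1)
        fun ω bs => PWκ_le_one U ω V fun c => ind_le_one _
      rwa [EP_const] at this
    have h3 := ent_nonneg U h0.le h1 V
    have h4 : 0 ≤ 1 / (10 * D) * ent U V := by positivity
    by_cases hg : Gd U B r V
    · rw [ind_true hg]; linarith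
    · rw [ind_false hg]
      unfold Gd at hg
      rw [not_and_or, not_le, not_le] at hg
      rcases hg with hg | hg
      · linarith
      · have : 1 ≤ 1 / (10 * D) * ent U V := by
          rw [div_mul_eq_mul_div, one_mul, le_div_iff₀ (by positivity)]
          linarith
        linarith
  have h2 := Ex_mono hpt
  rw [Ex_add, Ex_add, Ex_const hk, Ex_const_mul] at h2
  have h3 := ent_mean U
  have h4 : 1 / (10 * D) * (Ex k n₁ fun V => ent U V) ≤ 1 / 10 := by
    calc 1 / (10 * D) * (Ex k n₁ fun V => ent U V) ≤ 1 / (10 * D) * D :=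
          mul_le_mul_of_nonneg_left h3 (by positivity)
      _ = 1 / 10 := by field_simp
  linarith

/-- Lipschitz in the contents -/
lemma lip_dH (ω : Ω) (bs : Fin T → Bool) (c c' : Fin T × Fin R → C) (V : List (Fin k)) :
    (L (U.word ω bs c) V : ℝ) ≤ L (U.word ω bs c') V + n₀ * dH (labB R bs) c c' := by
  have h := U.lip ω bs c c' V
  have e : ∑ j : Fin T × Fin R, ind (bs j.1 = true ∧ c j ≠ c' j) =
      (dH (labB R bs) c c' : ℝ) := by
    unfold dH labB
    rw [Finset.filter_filter, Finset.card_filter]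
    push_cast
    refine Finset.sum_congr rfl fun j _ => ?_
    by_cases hj : bs j.1 = true ∧ c j ≠ c' j
    · rw [ind_true hj, if_pos hj]
    · rw [ind_false hj, if_neg hj]
  rw [e] at h
  linarith [(abs_le.1 h).2]

/-- the lower bound for good `V` -/
lemma good_V (hMULT : Stmt_MULT) (hDPIU : Stmt_DPIU) {lam δ₁ t ρ : ℝ} (hlam : 0 < lam)
    (hδ : 0 < δ₁) (hn₀ : 0 < n₀) (hb₀ : 0 < b₀) (ht0 : 0 < t) (ht1 : t ≤ 1)
    (ht2 : t ≤ lam * δ₁ / 200) (hρ0 : 0 < ρ) (hρ2 : ρ * n₀ ≤ δ₁ / 8)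
    (hρ3 : ρ * (Real.log (1 / t) + 2 * b₀) ≤ lam * δ₁ / 200) (h0 : 0 < θ) (h1 : θ < 1)
    (hx0 : 0 ≤ θ * T * R) (hx2 : 2500 ≤ lam * δ₁ * (θ * T * R)) (hΓ : Γ = θ * T * R * δ₁)
    (hD : D = lam / 1000 * Γ) (B : List (Fin k) → Prop) (V : List (Fin k))
    (hV : Gd U B ⌊ρ * (θ * T * R)⌋₊ V) :
    Real.exp (-(lam * Γ / 8)) ≤
      Ex k n₁ fun u => ind (B u ∧ gam k * n₁ + 3 * Γ / 8 ≤ (L u V : ℝ)) := by
  set x : ℝ := θ * T * R with hx
  set r : ℕ := ⌊ρ * x⌋₊ with hr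
  obtain ⟨hJ, hent⟩ := hV
  set J := EP U fun ω bs => PW (U.κ ω V) fun c => ind (Ev U B r ω bs V c) with hJdef
  have hJ0 : 0 < J := by linarith
  have hΓ0 : 0 ≤ Γ := by rw [hΓ]; positivity
  have hrx : (r : ℝ) ≤ ρ * x := Nat.floor_le (by positivity)
  have hlogt : 0 ≤ Real.log (1 / t) := Real.log_nonneg (by rw [le_div_iff₀ ht0]; linarith)
  -- data processing
  have hdp := hDPIU k n₁ T R θ Γ D a n₀ b₀ C Ω U V (fun ω bs c => Ev U B r ω bs V c) J (10 * D)
    h0 h1 (fun ω bs => dep_Ev U B r V ω bs) rfl hent hJ0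
  -- back to `B`
  set F : ℝ := Real.exp (r * Real.log (1 / t) + t * (11 / 10 * x)) * Real.exp (2 * b₀ * r) with hF
  have hF0 : 0 ≤ F := by positivity
  have hpt : ∀ ω bs, PW (fun _ : Fin T × Fin R => U.S) (fun c => ind (Ev U B r ω bs V c)) ≤
      F * PW (fun _ : Fin T × Fin R => U.S) (fun c =>
        ind (B (U.word ω bs c) ∧ gam k * n₁ + 3 * Γ / 8 ≤ (L (U.word ω bs c) V : ℝ))) := by
    intro ω bs
    have hnn : 0 ≤ PW (fun _ : Fin T × Fin R => U.S) (fun c =>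
        ind (B (U.word ω bs c) ∧ gam k * n₁ + 3 * Γ / 8 ≤ (L (U.word ω bs c) V : ℝ))) :=
      PW_nonneg (fun _ => S_nonneg U) fun c => ind_nonneg _
    by_cases hC : Cal U B ω bs
    · have hM := hMULT (Fin T × Fin R) C U.S b₀ (labB R bs) (fun c => B (U.word ω bs c))
        (fun c => gam k * n₁ + Γ / 2 ≤ (L (U.word ω bs c) V : ℝ)) r hb₀.le U.S_low U.S_sum U.card
        (depB U B ω bs) (by
          intro c c' h
          dsimp only
          rw [U.dep ω bs c c' fun j hj => h j (by simp [labB, hj])])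
      have e1 : PW (fun _ : Fin T × Fin R => U.S) (fun c => ind (Ev U B r ω bs V c)) ≤
          PW (fun _ : Fin T × Fin R => U.S) (fun c => ind
            (gam k * n₁ + Γ / 2 ≤ (L (U.word ω bs c) V : ℝ) ∧
              ∃ c', B (U.word ω bs c') ∧ dH (labB R bs) c c' ≤ r)) :=
        PW_mono (fun _ => S_nonneg U) fun c => ind_mono fun h => ⟨h.2.2, h.2.1⟩
      have e2 : PW (fun _ : Fin T × Fin R => U.S) (fun c' => ind (B (U.word ω bs c') ∧
            ∃ c, gam k * n₁ + Γ / 2 ≤ (L (U.word ω bs c) V : ℝ) ∧ dH (labB R bs) c c' ≤ r)) ≤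
          PW (fun _ : Fin T × Fin R => U.S) (fun c =>
            ind (B (U.word ω bs c) ∧ gam k * n₁ + 3 * Γ / 8 ≤ (L (U.word ω bs c) V : ℝ))) := by
        refine PW_mono (fun _ => S_nonneg U) fun c' => ind_mono ?_
        rintro ⟨hB', c, hc1, hc2⟩
        refine ⟨hB', ?_⟩
        have h2 := lip_dH U ω bs c c' V
        have h3 : n₀ * (dH (labB R bs) c c' : ℝ) ≤ Γ / 8 := by
          have h4 : (dH (labB R bs) c c' : ℝ) ≤ r := by exact_mod_cast hc2
          have h5 : n₀ * (dH (labB R bs) c c' : ℝ) ≤ n₀ * (ρ * x) :=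
            mul_le_mul_of_nonneg_left (h4.trans hrx) hn₀.le
          have h6 : n₀ * (ρ * x) = (ρ * n₀) * x := by ring
          have h7 : (ρ * n₀) * x ≤ δ₁ / 8 * x := mul_le_mul_of_nonneg_right hρ2 hx0
          rw [hΓ]
          linarith
        linarith
      have e3 : (∑ i ∈ Finset.range (r + 1), ((labB R bs).card.choose i : ℝ)) *
          Real.exp (2 * b₀ * r) ≤ F := by
        rw [hF]
        apply mul_le_mul_of_nonneg_right _ (Real.exp_pos _).le
        refine (binom_sum_le (M := (labB R bs).card) (r := r) ht0 ht1).trans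
          (Real.exp_le_exp.2 ?_)
        have hM1 : ((labB R bs).card : ℝ) ≤ 11 / 10 * x := by
          rw [labB_card, hx]
          push_cast
          have := mul_le_mul_of_nonneg_left hC.2.2 (Nat.cast_nonneg R : (0 : ℝ) ≤ R)
          linarith
        have := mul_le_mul_of_nonneg_left hM1 ht0.le
        linarith
      refine e1.trans (hM.trans ?_)
      exact mul_le_mul e3 e2 (PW_nonneg (fun _ => S_nonneg U) fun c => ind_nonneg _) hF0
    · have : ∀ c, ind (Ev U B r ω bs V c) = 0 := fun c => ind_false fun h => hC h.1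
      simp only [this]
      rw [PW_const (fun _ => U.S_sum)]
      positivity
  have h2 := EP_mono U h0.le h1.le hpt
  rw [EP_const_mul] at h2
  have e := U.unif fun u => ind (B u ∧ gam k * n₁ + 3 * Γ / 8 ≤ (L u V : ℝ))
  have e' : (EP U fun ω bs => PW (fun _ : Fin T × Fin R => U.S) (fun c =>
        ind (B (U.word ω bs c) ∧ gam k * n₁ + 3 * Γ / 8 ≤ (L (U.word ω bs c) V : ℝ)))) =
      Ex k n₁ fun u => ind (B u ∧ gam k * n₁ + 3 * Γ / 8 ≤ (L u V : ℝ)) := e
  rw [e'] at h2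
  set P0 := Ex k n₁ fun u => ind (B u ∧ gam k * n₁ + 3 * Γ / 8 ≤ (L u V : ℝ)) with hP0
  have h3 : Real.exp (-((10 * D + Real.log 2) / J)) ≤ F * P0 := hdp.trans h2
  have hl2 := Real.log_two_lt_d9
  have hl2' : 0 < Real.log 2 := Real.log_pos (by norm_num)
  have hD0 : 0 ≤ D := by rw [hD]; positivity
  have h4 : (10 * D + Real.log 2) / J ≤ lam * Γ / 10 + 7 := by
    rw [div_le_iff₀ hJ0]
    have h5 : (lam * Γ / 10 + 7) * (1 / 10) ≤ (lam * Γ / 10 + 7) * J :=
      mul_le_mul_of_nonneg_left hJ (by positivity)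
    rw [hD]
    linarith
  have h5 : Real.exp (-(lam * Γ / 10 + 7)) ≤ F * P0 :=
    (Real.exp_le_exp.2 (neg_le_neg h4)).trans h3
  have h6 : F ≤ Real.exp (lam * Γ * (21 / 2000)) := by
    rw [hF, ← Real.exp_add]
    apply Real.exp_le_exp.2
    have h7 : (r : ℝ) * (Real.log (1 / t) + 2 * b₀) ≤ lam * δ₁ / 200 * x := by
      calc (r : ℝ) * (Real.log (1 / t) + 2 * b₀) ≤ (ρ * x) * (Real.log (1 / t) + 2 * b₀) :=
            mul_le_mul_of_nonneg_right hrx (by linarith)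
        _ = (ρ * (Real.log (1 / t) + 2 * b₀)) * x := by ring
        _ ≤ _ := mul_le_mul_of_nonneg_right hρ3 hx0
    have h8 : t * (11 / 10 * x) ≤ lam * δ₁ / 200 * (11 / 10 * x) :=
      mul_le_mul_of_nonneg_right ht2 (by positivity)
    rw [hΓ]
    linarith
  have hP00 : 0 ≤ P0 := Ex_nonneg fun _ _ => ind_nonneg _
  have h7 : Real.exp (-(lam * Γ / 10 + 7)) ≤ Real.exp (lam * Γ * (21 / 2000)) * P0 :=
    h5.trans (mul_le_mul_of_nonneg_right h6 hP00)
  have h8 : Real.exp (-(lam * Γ / 8)) * Real.exp (lam * Γ * (21 / 2000)) ≤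
      Real.exp (-(lam * Γ / 10 + 7)) := by
    rw [← Real.exp_add]
    apply Real.exp_le_exp.2
    have : lam * Γ = lam * δ₁ * x := by rw [hΓ]; ring
    linarith
  have h9 : Real.exp (lam * Γ * (21 / 2000)) * Real.exp (-(lam * Γ / 8)) ≤
      Real.exp (lam * Γ * (21 / 2000)) * P0 := by
    rw [mul_comm]
    exact h8.trans h7
  exact le_of_mul_le_mul_left h9 (Real.exp_pos _)

end main

/-! ### blow-up in `V` -/

lemma log_ten_le : Real.log (1 / (1 / 10 : ℝ)) ≤ 2.4 := by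
  have e : (1 / (1 / 10 : ℝ)) = 10 := by norm_num
  rw [e]
  have h1 : Real.log ((10 : ℝ) ^ 3) ≤ Real.log (2 ^ 10) :=
    Real.log_le_log (by norm_num) (by norm_num)
  rw [Real.log_pow, Real.log_pow] at h1
  have := Real.log_two_lt_d9
  push_cast at h1
  linarith

lemma ham_symm {k : ℕ} : ∀ V V' : List (Fin k),
    ((V'.zip V).filter fun p => p.1 ≠ p.2).length =
      ((V.zip V').filter fun p => p.1 ≠ p.2).length := by
  intro V
  induction V with
  | nil => intro V'; simp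
  | cons a V ih =>
    intro V'
    cases V' with
    | nil => simp
    | cons b V' =>
      rw [List.zip_cons_cons, List.zip_cons_cons]
      by_cases hab : a = b
      · subst hab
        rw [List.filter_cons_of_neg (by simp), List.filter_cons_of_neg (by simp)]
        exact ih V'
      · rw [List.filter_cons_of_pos (by simpa using Ne.symm hab),
          List.filter_cons_of_pos (by simpa using hab), List.length_cons, List.length_cons, ih V']

lemma final_blow (hBLOW : Stmt_BLOW) {k n₁ : ℕ} (hk : 0 < k) {Γ E g : ℝ} (hΓ : 100 ≤ Γ)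
    (hΓn : 10000 * √(n₁ : ℝ) ≤ Γ) {B G : List (Fin k) → Prop}
    (hG : 1 / 10 ≤ Ex k n₁ fun V => ind (G V))
    (hgood : ∀ V, G V → E ≤ Ex k n₁ fun u => ind (B u ∧ g + 3 * Γ / 8 ≤ (L u V : ℝ))) :
    (Ex k n₁ fun V => ind ((Ex k n₁ fun u => ind (B u ∧ g + Γ / 4 ≤ (L u V : ℝ))) < E)) ≤
      Real.exp (-(Γ ^ 2 / (100 * n₁))) := by
  rcases Nat.eq_zero_or_pos n₁ with hn | hn
  · have : Real.exp (-(Γ ^ 2 / (100 * (n₁ : ℝ)))) = 1 := by
      rw [hn]; simp
    rw [this]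
    exact Ex_le_const hk fun V _ => ind_le_one _
  have hn' : (1 : ℝ) ≤ n₁ := by exact_mod_cast hn
  have hlog := log_ten_le
  have hlog0 : 0 ≤ Real.log (1 / (1 / 10 : ℝ)) := Real.log_nonneg (by norm_num)
  have hsn : (0 : ℝ) ≤ √(n₁ : ℝ) := Real.sqrt_nonneg _
  have hsq : √((n₁ : ℝ) * Real.log (1 / (1 / 10)) / 2) ≤ Γ / 80 := by
    have h1 : √((n₁ : ℝ) * Real.log (1 / (1 / 10)) / 2) ≤ 2 * √(n₁ : ℝ) := by
      apply Real.sqrt_le_iff.2
      refine ⟨by positivity, ?_⟩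
      rw [mul_pow, Real.sq_sqrt (by positivity)]
      have := mul_le_mul_of_nonneg_left hlog (by positivity : (0 : ℝ) ≤ n₁)
      linarith
    linarith
  obtain ⟨h, hh⟩ : ∃ h : ℕ, h = ⌊Γ / 8⌋₊ := ⟨_, rfl⟩
  have hh1 : (h : ℝ) ≤ Γ / 8 := by rw [hh]; exact Nat.floor_le (by positivity)
  have hh2 : Γ / 8 - 1 ≤ (h : ℝ) := by rw [hh]; exact (Nat.sub_one_lt_floor _).le
  have hb := hBLOW k n₁ h G (1 / 10) hk (by norm_num) (by norm_num) hG (by linarith)
  have hmono : (Ex k n₁ fun V => ind ((Ex k n₁ fun u => ind (B u ∧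
      g + Γ / 4 ≤ (L u V : ℝ))) < E)) ≤
      Ex k n₁ fun V => ind (¬ ∃ V', G V' ∧ V'.length = n₁ ∧ Ham V V' h) := by
    refine Ex_mono fun V _ => ind_mono ?_
    rintro hlt ⟨V', hV', -, hlen, hham⟩
    apply absurd hlt
    rw [not_lt]
    refine (hgood V' hV').trans (Ex_mono fun u _ => ind_mono ?_)
    rintro ⟨hBu, hLu⟩
    refine ⟨hBu, ?_⟩
    have h1 := L_ham V' V hlen.symm u
    have h3 : (L u V' : ℝ) ≤ L u V + h := by
      have : L u V' ≤ L u V + h := by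
        refine h1.trans (Nat.add_le_add_left ?_ _)
        rw [ham_symm]
        exact hham
      exact_mod_cast this
    linarith
  refine hmono.trans (hb.trans (Real.exp_le_exp.2 (neg_le_neg ?_)))
  have h1 : Γ / 10 ≤ (h : ℝ) - √((n₁ : ℝ) * Real.log (1 / (1 / 10)) / 2) := by linarith
  have h2 : (Γ / 10) ^ 2 ≤ ((h : ℝ) - √((n₁ : ℝ) * Real.log (1 / (1 / 10)) / 2)) ^ 2 :=
    pow_le_pow_left₀ (by positivity) h1 2
  have h3 : Γ ^ 2 / (100 * (n₁ : ℝ)) = (Γ / 10) ^ 2 / n₁ := by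
    field_simp
    ring
  rw [h3]
  apply div_le_div_of_nonneg_right _ (by positivity)
  linarith [sq_nonneg (Γ / 10)]

section core

variable {k n₁ T R : ℕ} {θ Γ D a n₀ b₀ : ℝ} {C Ω : Type} [Fintype C] [Fintype Ω] [DecidableEq C]

/-- the estimate for given constants -/
lemma core (hBLK : Stmt_BLK) (hMULT : Stmt_MULT) (hDPIU : Stmt_DPIU) (hBLOW : Stmt_BLOW)
    (U : UnitData k n₁ T R θ Γ D a n₀ b₀ C Ω) (hk : 0 < k) {lam δ₁ t ρ : ℝ} (hlam : 0 < lam)
    (hδ : 0 < δ₁) (hn₀ : 0 < n₀) (hb₀ : 0 < b₀) (ht0 : 0 < t) (ht1 : t ≤ 1)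
    (ht2 : t ≤ lam * δ₁ / 200) (hρ0 : 0 < ρ) (hρ1 : ρ ≤ 1 / 2) (hρ2 : ρ * n₀ ≤ δ₁ / 8)
    (hρ3 : ρ * (Real.log (1 / t) + 2 * b₀) ≤ lam * δ₁ / 200) (h0 : 0 < θ) (h1 : θ < 1)
    (hθT : 10000 ≤ θ * T) (hR : 1 ≤ R) (hx0 : 0 ≤ θ * T * R) (hx1 : 16 / ρ ^ 2 ≤ θ * T * R)
    (hx2 : 2500 ≤ lam * δ₁ * (θ * T * R)) (hx3 : 100 ≤ Γ) (hΓ : Γ = θ * T * R * δ₁)
    (hΓn : 10000 * √(n₁ : ℝ) ≤ Γ) (hD : D = lam / 1000 * Γ) (hluck : HPLuck U (1 / 100))
    (B : List (Fin k) → Prop) (hB : 1 / 2 ≤ (Ex k n₁ fun u => ind (B u)))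
    (HC : ∀ X : Ω → (Fin T → Bool) → (Fin T × Fin R → C) → Prop,
      (∀ ω bs, DepOn (labB R bs) (X ω bs)) →
      (∀ ω bs, PW (fun _ : Fin T × Fin R => U.S) (fun c => ind (X ω bs c)) ≤
        Real.exp (-(ρ ^ 2 / 4 * R * (lab bs).card))) →
      (EP U fun ω bs => Ex k n₁ fun V => PW (U.κ ω V) fun c => ind (X ω bs c)) ≤ 1 / 100) :
    (Ex k n₁ fun V => ind ((Ex k n₁ fun u => ind (B u ∧ gam k * n₁ + Γ / 4 ≤ (L u V : ℝ))) <
      Real.exp (-(lam * Γ / 8)))) ≤ Real.exp (-(Γ ^ 2 / (100 * n₁))) := by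
  have hcol := HC (fun ω bs c => Cal U B ω bs ∧ ¬ ∃ c', B (U.word ω bs c') ∧
        dH (labB R bs) c c' ≤ ⌊ρ * (θ * T * R)⌋₊) (by
      intro ω bs c c' h
      have := dH_symm_dep (labB R bs) (fun c => B (U.word ω bs c)) ⌊ρ * (θ * T * R)⌋₊ c c' h
      dsimp only at this ⊢
      rw [this]) (by
      intro ω bs
      by_cases hC : Cal U B ω bs
      · refine le_trans ?_ (blow_pattern U hBLK hρ0 hρ1 hθT hR hx1 B ω bs hC)
        exact PW_mono (fun _ => S_nonneg U) fun c => ind_mono fun h => h.2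
      · have : ∀ c, ind (Cal U B ω bs ∧ ¬ ∃ c', B (U.word ω bs c') ∧
            dH (labB R bs) c c' ≤ ⌊ρ * (θ * T * R)⌋₊) = 0 :=
          fun c => ind_false fun h => hC h.1
        simp only [this]
        rw [PW_const (fun _ => U.S_sum)]
        exact (Real.exp_pos _).le)
  have hEv := prob_Ev U hk h0 h1.le hθT hluck B hB _ hcol
  have hD0 : 0 < D := by rw [hD]; positivity
  have hGd := prob_Gd U hk h0 h1.le hD0 B _ hEv
  exact final_blow hBLOW hk hx3 hΓn hGd fun V hV =>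
    good_V U hMULT hDPIU hlam hδ hn₀ hb₀ ht0 ht1 ht2 hρ0 hρ2 hρ3 h0 h1 hx0 hx2 hΓ hD B V hV

end core

end LUOne

open LUOne in
/-- **ONE** -/
theorem stmt_ONE (hBLK : Stmt_BLK) (hMULT : Stmt_MULT) (hCOL : Stmt_COL) (hDPIU : Stmt_DPIU)
    (hBLOW : Stmt_BLOW) : Stmt_ONE := by
  intro lam δ₁ n₀ b₀ hlam hδ hn₀ hb₀
  obtain ⟨t, ht⟩ : ∃ t : ℝ, t = min 1 (lam * δ₁ / 200) := ⟨_, rfl⟩
  have ht0 : 0 < t := by rw [ht]; exact lt_min one_pos (by positivity)
  have ht1 : t ≤ 1 := by rw [ht]; exact min_le_left _ _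
  have ht2 : t ≤ lam * δ₁ / 200 := by rw [ht]; exact min_le_right _ _
  have hlogt : 0 ≤ Real.log (1 / t) := Real.log_nonneg (by rw [le_div_iff₀ ht0]; linarith)
  obtain ⟨w, hw⟩ : ∃ w : ℝ, w = Real.log (1 / t) + 2 * b₀ := ⟨_, rfl⟩
  have hw0 : 0 < w := by rw [hw]; linarith
  obtain ⟨ρ, hρ⟩ : ∃ ρ : ℝ, ρ = min (1 / 2) (min (δ₁ / (8 * n₀)) (lam * δ₁ / (200 * w))) :=
    ⟨_, rfl⟩
  have hρ0 : 0 < ρ := by
    rw [hρ]
    exact lt_min (by norm_num) (lt_min (by positivity) (by positivity))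
  have hρ1 : ρ ≤ 1 / 2 := by rw [hρ]; exact min_le_left _ _
  have hρ2 : ρ * n₀ ≤ δ₁ / 8 := by
    have : ρ ≤ δ₁ / (8 * n₀) := by
      rw [hρ]; exact (min_le_right _ _).trans (min_le_left _ _)
    rw [le_div_iff₀ (by positivity)] at this
    linarith
  have hρ3 : ρ * (Real.log (1 / t) + 2 * b₀) ≤ lam * δ₁ / 200 := by
    have : ρ ≤ lam * δ₁ / (200 * w) := by
      rw [hρ]; exact (min_le_right _ _).trans (min_le_right _ _)
    rw [le_div_iff₀ (by positivity)] at this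
    rw [← hw]
    linarith
  obtain ⟨Ac, hAc, HC⟩ := hCOL (ρ ^ 2 / 4) (by positivity)
  have p1 : 0 < 16 / ρ ^ 2 := by positivity
  have p2 : 0 < 2500 / (lam * δ₁) := by positivity
  have p3 : 0 < 100 / δ₁ := by positivity
  refine ⟨Ac + 10000 + 16 / ρ ^ 2 + 2500 / (lam * δ₁) + 100 / δ₁, by positivity, ?_⟩
  intro k n₁ T R N a C Ω _ _ _ hk hN hT hR ha hRa Γ hΓ hΓn U hluck B hB
  obtain ⟨A₀, hA₀⟩ : ∃ A₀ : ℝ, A₀ = Ac + 10000 + 16 / ρ ^ 2 + 2500 / (lam * δ₁) + 100 / δ₁ :=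
    ⟨_, rfl⟩
  rw [← hA₀] at hT hRa hΓn
  have hN0 : (0 : ℝ) < N := by
    have : 0 < N := by omega
    exact_mod_cast this
  have hN2 : (2 : ℝ) ≤ N := by exact_mod_cast hN
  have hR' : (1 : ℝ) ≤ R := by exact_mod_cast hR
  have hθ0 : (0 : ℝ) < 1 / (N : ℝ) := by positivity
  have hθ1 : 1 / (N : ℝ) < 1 := by
    rw [div_lt_one hN0]
    linarith
  have hθT : A₀ ≤ 1 / (N : ℝ) * T := by
    rw [one_div, inv_mul_eq_div, le_div_iff₀ hN0]
    exact hT
  have hA1 : Ac ≤ A₀ := by linarith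
  have hA2 : 10000 ≤ A₀ := by linarith
  have hθT0 : 0 ≤ 1 / (N : ℝ) * T := by positivity
  have hxA : A₀ ≤ 1 / (N : ℝ) * T * R := by
    have := mul_le_mul_of_nonneg_left hR' hθT0
    linarith
  have hx2 : 2500 ≤ lam * δ₁ * (1 / (N : ℝ) * T * R) := by
    have h : 2500 / (lam * δ₁) ≤ 1 / (N : ℝ) * T * R := by linarith
    rw [div_le_iff₀ (by positivity)] at h
    linarith
  have hx3 : 100 ≤ Γ := by
    have h : 100 / δ₁ ≤ 1 / (N : ℝ) * T * R := by linarith
    rw [div_le_iff₀ hδ] at h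
    rw [hΓ]
    exact h
  have hsn : (0 : ℝ) ≤ √(n₁ : ℝ) := Real.sqrt_nonneg _
  have hTc : Ac * N ≤ T := (mul_le_mul_of_nonneg_right hA1 hN0.le).trans hT
  have hRc : Ac * (a + 1) ≤ R := (mul_le_mul_of_nonneg_right hA1 (by linarith)).trans hRa
  exact core hBLK hMULT hDPIU hBLOW U (by omega) hlam hδ hn₀ hb₀ ht0 ht1 ht2 hρ0 hρ1 hρ2 hρ3
    hθ0 hθ1 (by linarith) hR (by positivity) (by linarith) hx2 hx3 hΓ
    ((mul_le_mul_of_nonneg_right hA2 hsn).trans hΓn) rfl hluck B hB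
    (HC k n₁ T R N Γ (lam / 1000 * Γ) a n₀ b₀ C Ω hN hTc hR ha hRc U)

end

end Pool.Agent.LCSV
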