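import Pool.Agent.Work.MP_bec1e1_E_helper47.Base

/-!
# Linear variance of the LCS for every alphabet: definitions

Words are lists over `Fin k`; `L` and `Ex` are those of `MP_bec1e1_E_helper47.Base`.
-/

set_option autoImplicit false
set_option maxHeartbeats 400000

open Filter Topology
open scoped BigOperators

namespace Pool.Agent.LCSV

open Pool.Agent.LCSE

noncomputable section

open scoped Classical in
/-- indicator of a proposition -/
def ind (P : Prop) : ℝ := if P then 1 else 0

/-- mean LCS of two random words of lengths `a`, `b` -/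
def F (k a b : ℕ) : ℝ := Ex k a fun x => Ex k b fun y => (L x y : ℝ)

/-- variance of the LCS of two random words of length `n` -/
def VarL (k n : ℕ) : ℝ := Ex k n fun x => Ex k n fun y => ((L x y : ℝ) - F k n n) ^ 2

/-- the shape function in real directions -/
def Phi (k : ℕ) (a b : ℝ) : ℝ :=
  ⨆ n : ℕ, F k ⌊((n : ℝ) + 1) * a⌋₊ ⌊((n : ℝ) + 1) * b⌋₊ / ((n : ℝ) + 1)

/-- `γ` -/
def gam (k : ℕ) : ℝ := Phi k 1 1

/-- `α = γ / 2` -/
def al (k : ℕ) : ℝ := gam k / 2

/-- directions in which the shape function is equal to its linear upper bound `α (a + b)` -/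
def Flat (k : ℕ) (a b : ℝ) : Prop := Phi k a b = al k * (a + b)

/-- the flat cone is `1 / rho ≤ b / a ≤ rho` -/
def rho (k : ℕ) : ℝ := sSup {v : ℝ | 1 ≤ v ∧ Flat k 1 v}

/-- the negation of the lower bound for the variance -/
def Rigid (k : ℕ) : Prop := ∀ ε : ℝ, 0 < ε → ∀ N₀ : ℕ, ∃ N : ℕ, N₀ ≤ N ∧ VarL k N ≤ ε * N

/-- mean over the lists of `T` independent words (cells) of length `s`, each with density `g` with
respect to the uniform law -/
def Exc (k s : ℕ) (g : List (Fin k) → ℝ) : ℕ → (List (List (Fin k)) → ℝ) → ℝ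
  | 0, f => f []
  | T + 1, f => Ex k s fun w => g w * Exc k s g T fun l => f (w :: l)

/-- mean over the lists of `T` independent uniform words of length `s` -/
def Exs (k s T : ℕ) (f : List (List (Fin k)) → ℝ) : ℝ := Exc k s (fun _ => 1) T f

/-- density of a cell law: the word `o^s` is a bit less likely than under the uniform law -/
def gth (k s : ℕ) (o : Fin k) (θ : ℝ) (w : List (Fin k)) : ℝ :=
  1 + θ - θ * (k : ℝ) ^ s * ind (w = List.replicate s o)

end

end Pool.Agent.LCSV
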