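import Pool.Agent.Work.MP_bec1e1_lv_helper15.PlantInterface

/-!
# LU = UNITDATA (planting, uses Q, BASE) + ABS (finite probability). See `PROOF_LU.md`.

A unit: `T` cells with `R` blocks each; block contents in a finite type `C` with reference weights
`S`; labels Bernoulli `θ`; `word ω bs c` is a word of length `n₁` which only depends on the contents
of the labelled cells; for a word `V` of length `n₁` the contents are independent with weights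
`κ ω V i r`.
-/

set_option autoImplicit false
set_option maxHeartbeats 400000

open Filter Topology
open scoped BigOperators

namespace Pool.Agent.LCSV

open Pool.Agent.LCSE

noncomputable section

/-- expectation over independent coordinates with weights `w i` -/
def PW {ι C : Type} [Fintype ι] [DecidableEq ι] [Fintype C] (w : ι → C → ℝ)
    (f : (ι → C) → ℝ) : ℝ := ∑ c : ι → C, (∏ i, w i (c i)) * f c

/-- Bernoulli weights -/
def bw (θ : ℝ) (b : Bool) : ℝ := if b then θ else 1 - θ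

/-- relative entropy of two weight functions -/
def KL {C : Type} [Fintype C] (q p : C → ℝ) : ℝ := ∑ c, q c * Real.log (q c / p c)

/-- data of a unit; `Γ`: luck, `D`: bound for the entropy, `a`: domination exponent per cell, `n₀`:
Lipschitz constant of a block, `b₀`: size of the block space. -/
structure UnitData (k n₁ T R : ℕ) (θ Γ D a n₀ b₀ : ℝ) (C Ω : Type) [Fintype C] [Fintype Ω]
    [DecidableEq C] where
  P : Ω → ℝ
  S : C → ℝ
  word : Ω → (Fin T → Bool) → (Fin T × Fin R → C) → List (Fin k)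
  κ : Ω → List (Fin k) → Fin T × Fin R → C → ℝ
  P_nonneg : ∀ ω, 0 ≤ P ω
  P_sum : ∑ ω, P ω = 1
  S_sum : ∑ c, S c = 1
  S_low : ∀ c, Real.exp (-b₀) ≤ S c
  card : (Fintype.card C : ℝ) ≤ Real.exp b₀
  κ_nonneg : ∀ ω V j c, 0 ≤ κ ω V j c
  κ_sum : ∀ ω V j, ∑ c, κ ω V j c = 1
  word_len : ∀ ω bs c, (word ω bs c).length = n₁
  /-- the word only depends on the labelled contents, and is Lipschitz in them -/
  lip : ∀ ω bs (c c' : Fin T × Fin R → C) (V : List (Fin k)),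
    |(L (word ω bs c) V : ℝ) - L (word ω bs c') V| ≤
      n₀ * ∑ j : Fin T × Fin R, ind (bs j.1 = true ∧ c j ≠ c' j)
  dep : ∀ ω bs (c c' : Fin T × Fin R → C), (∀ j : Fin T × Fin R, bs j.1 = true → c j = c' j) →
    word ω bs c = word ω bs c'
  /-- exact uniformity -/
  unif : ∀ f : List (Fin k) → ℝ, (∑ ω, P ω * PW (fun _ : Fin T => bw θ) fun bs =>
    PW (fun _ : Fin T × Fin R => S) fun c => f (word ω bs c)) = Ex k n₁ f
  /-- domination of the law of the contents -/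
  dom : ∀ ω (f : (Fin T × Fin R → C) → ℝ), (∀ c, 0 ≤ f c) →
    (Ex k n₁ fun V => PW (κ ω V) f) ≤ Real.exp (a * T) * PW (fun _ => S) f
  /-- luck -/
  luck : gam k * n₁ + Γ ≤ ∑ ω, P ω * PW (fun _ : Fin T => bw θ) fun bs =>
    Ex k n₁ fun V => PW (κ ω V) fun c => (L (word ω bs c) V : ℝ)
  /-- entropy -/
  ent : (∑ ω, P ω * PW (fun _ : Fin T => bw θ) fun bs =>
    Ex k n₁ fun V => ∑ j : Fin T × Fin R, ind (bs j.1 = true) * KL (κ ω V j) S) ≤ D

/-- RFL for a given `lam` -/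
def RFL (k : ℕ) (lam : ℝ) : Prop :=
  ∃ (ζ c : ℝ), 0 < ζ ∧ ζ < 1 ∧ 0 < c ∧ ∀ᶠ n : ℕ in atTop, ∀ B : List (Fin k) → Prop,
    1 / 2 ≤ (Ex k n fun u => ind (B u)) →
    (Ex k n fun V => ind ((Ex k n fun u => ind (B u ∧ (gam k + ζ) * n ≤ (L u V : ℝ))) <
      Real.exp (-(lam * ζ * n)))) ≤ Real.exp (-(c * n))

/-- **ABS**: RFL from the data of one unit. `Γ = θ T R δ₁`, entropy at most `lam / 1000 * Γ`, and `R`
large compared with the domination exponent. -/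
def Stmt_ABS : Prop := ∀ k : ℕ, 2 ≤ k → ∀ lam δ₁ n₀ b₀ : ℝ, 0 < lam → 0 < δ₁ → 0 < n₀ → 0 < b₀ →
  ∃ A₀ : ℝ, 0 < A₀ ∧ ∀ (n₁ T R N : ℕ) (a : ℝ) (C Ω : Type) [Fintype C] [Fintype Ω] [DecidableEq C],
    2 ≤ N → N ≤ T → 1 ≤ R → 0 ≤ a → A₀ * (a + 1) ≤ R →
    ∀ _U : UnitData k n₁ T R (1 / (N : ℝ)) (1 / (N : ℝ) * T * R * δ₁)
      (lam / 1000 * (1 / (N : ℝ) * T * R * δ₁)) a n₀ b₀ C Ω, RFL k lam

/-- **UNITDATA**: for every `z > 0` there are `δ₁ n₀ b₀` and, for every `A₀`, a unit with entropy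
at most `z Γ`. -/
def Stmt_UNITDATA : Prop := ∀ k : ℕ, 2 ≤ k → Rigid k → ∀ z : ℝ, 0 < z →
  ∃ δ₁ n₀ b₀ : ℝ, 0 < δ₁ ∧ 0 < n₀ ∧ 0 < b₀ ∧ ∀ A₀ : ℝ, 0 < A₀ →
    ∃ (n₁ T R N : ℕ) (a : ℝ) (C Ω : Type) (_ : Fintype C) (_ : Fintype Ω) (_ : DecidableEq C),
      2 ≤ N ∧ N ≤ T ∧ 1 ≤ R ∧ 0 ≤ a ∧ A₀ * (a + 1) ≤ R ∧
      Nonempty (UnitData k n₁ T R (1 / (N : ℝ)) (1 / (N : ℝ) * T * R * δ₁)
        (z * (1 / (N : ℝ) * T * R * δ₁)) a n₀ b₀ C Ω)

theorem lu_of (hA : Stmt_ABS) (hU : Stmt_UNITDATA) : Stmt_LU := by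
  intro k hk hR lam hlam
  obtain ⟨δ₁, n₀, b₀, h1, h2, h3, H⟩ := hU k hk hR (lam / 1000) (by positivity)
  obtain ⟨A₀, hA0, HA⟩ := hA k hk lam δ₁ n₀ b₀ hlam h1 h2 h3
  obtain ⟨n₁, T, R, N, a, C, Ω, _, _, _, hN, hNT, hR1, ha, haR, ⟨U⟩⟩ := H A₀ hA0
  exact HA n₁ T R N a C Ω hN hNT hR1 ha haR U

/-! ### blocks of ABS -/

/-- number of coordinates of `Λ` in which `c` and `c'` differ -/
def dH {ι C : Type} [DecidableEq C] (Λ : Finset ι) (c c' : ι → C) : ℕ := (Λ.filter fun i => c i ≠ c' i).card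

/-- a set of contents which only depends on the coordinates in `Λ` -/
def DepOn {ι C : Type} (Λ : Finset ι) (A : (ι → C) → Prop) : Prop :=
  ∀ c c' : ι → C, (∀ i ∈ Λ, c i = c' i) → (A c ↔ A c')

/-- labelled cells -/
def lab {T : ℕ} (bs : Fin T → Bool) : Finset (Fin T) := Finset.univ.filter fun i => bs i = true

/-- labelled blocks -/
def labB {T : ℕ} (R : ℕ) (bs : Fin T → Bool) : Finset (Fin T × Fin R) :=
  Finset.univ.filter fun j => bs j.1 = true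

/-- **BLK**: blow-up in a product space. -/
def Stmt_BLK : Prop := ∀ (ι C : Type) [Fintype ι] [DecidableEq ι] [Fintype C] [DecidableEq C]
  (S : C → ℝ) (Λ : Finset ι) (A : (ι → C) → Prop) (δ : ℝ) (h : ℕ), (∀ c, 0 ≤ S c) → ∑ c, S c = 1 →
  DepOn Λ A → 0 < δ → δ ≤ 1 → δ ≤ PW (fun _ : ι => S) (fun c => ind (A c)) → 0 < Λ.card →
  √(Λ.card * Real.log (1 / δ) / 2) ≤ h →
  PW (fun _ : ι => S) (fun c => ind (¬ ∃ c', A c' ∧ dH Λ c c' ≤ h)) ≤
    Real.exp (-(2 * (h - √(Λ.card * Real.log (1 / δ) / 2)) ^ 2 / Λ.card))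

/-- **MULT**: back from the blow-up. -/
def Stmt_MULT : Prop := ∀ (ι C : Type) [Fintype ι] [DecidableEq ι] [Fintype C] [DecidableEq C]
  (S : C → ℝ) (b₀ : ℝ) (Λ : Finset ι) (A G : (ι → C) → Prop) (r : ℕ),
  0 ≤ b₀ → (∀ c, Real.exp (-b₀) ≤ S c) → ∑ c, S c = 1 → (Fintype.card C : ℝ) ≤ Real.exp b₀ →
  DepOn Λ A → DepOn Λ G →
  PW (fun _ : ι => S) (fun c => ind (G c ∧ ∃ c', A c' ∧ dH Λ c c' ≤ r)) ≤
    (∑ i ∈ Finset.range (r + 1), (Λ.card.choose i : ℝ)) * Real.exp (2 * b₀ * r) *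
      PW (fun _ : ι => S) (fun c' => ind (A c' ∧ ∃ c, G c ∧ dH Λ c c' ≤ r))

/-- **COL**: coloured union bound. -/
def Stmt_COL : Prop := ∀ η : ℝ, 0 < η → ∃ A₀ : ℝ, 0 < A₀ ∧
  ∀ (k n₁ T R N : ℕ) (Γ D a n₀ b₀ : ℝ) (C Ω : Type) [Fintype C] [Fintype Ω] [DecidableEq C],
    2 ≤ N → A₀ * N ≤ T → 1 ≤ R → 0 ≤ a → A₀ * (a + 1) ≤ R →
    ∀ (U : UnitData k n₁ T R (1 / (N : ℝ)) Γ D a n₀ b₀ C Ω)
      (X : Ω → (Fin T → Bool) → (Fin T × Fin R → C) → Prop),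
      (∀ ω bs, DepOn (labB R bs) (X ω bs)) →
      (∀ ω bs, PW (fun _ : Fin T × Fin R => U.S) (fun c => ind (X ω bs c)) ≤
        Real.exp (-(η * R * (lab bs).card))) →
      (∑ ω, U.P ω * PW (fun _ : Fin T => bw (1 / (N : ℝ))) fun bs =>
        Ex k n₁ fun V => PW (U.κ ω V) fun c => ind (X ω bs c)) ≤ 1 / 100

/-- **DPIU**: data processing on the space (pattern, contents). -/
def Stmt_DPIU : Prop := ∀ (k n₁ T R : ℕ) (θ Γ D a n₀ b₀ : ℝ) (C Ω : Type) [Fintype C] [Fintype Ω]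
  [DecidableEq C] (U : UnitData k n₁ T R θ Γ D a n₀ b₀ C Ω) (V : List (Fin k))
  (X : Ω → (Fin T → Bool) → (Fin T × Fin R → C) → Prop) (J DV : ℝ), 0 < θ → θ < 1 →
  (∀ ω bs, DepOn (labB R bs) (X ω bs)) →
  (∑ ω, U.P ω * PW (fun _ : Fin T => bw θ) fun bs => PW (U.κ ω V) fun c => ind (X ω bs c)) = J →
  (∑ ω, U.P ω * PW (fun _ : Fin T => bw θ) fun bs =>
    ∑ j : Fin T × Fin R, ind (bs j.1 = true) * KL (U.κ ω V j) U.S) ≤ DV → 0 < J →
  Real.exp (-((DV + Real.log 2) / J)) ≤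
    ∑ ω, U.P ω * PW (fun _ : Fin T => bw θ) fun bs => PW (fun _ => U.S) fun c => ind (X ω bs c)

/-- luck with high probability -/
def HPLuck {k n₁ T R : ℕ} {θ Γ D a n₀ b₀ : ℝ} {C Ω : Type} [Fintype C] [Fintype Ω]
    [DecidableEq C] (U : UnitData k n₁ T R θ Γ D a n₀ b₀ C Ω) (ε : ℝ) : Prop :=
  (∑ ω, U.P ω * PW (fun _ : Fin T => bw θ) fun bs => Ex k n₁ fun V => PW (U.κ ω V) fun c =>
    ind ((L (U.word ω bs c) V : ℝ) < gam k * n₁ + Γ / 2)) ≤ ε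

/-- **TENS**: `K` independent units are a unit with high probability luck. -/
def Stmt_TENS : Prop := ∀ (k n₁ T R : ℕ) (θ Γ D a n₀ b₀ : ℝ) (C Ω : Type) [Fintype C]
  [Fintype Ω] [DecidableEq C], 0 < k → 0 < Γ → 0 < θ → θ < 1 → 0 ≤ a →
  UnitData k n₁ T R θ Γ D a n₀ b₀ C Ω → ∀ᶠ K : ℕ in atTop,
    ∃ U' : UnitData k (K * n₁) (K * T) R θ (K * Γ) (K * D) a n₀ b₀ C (Fin K → Ω),
      HPLuck U' (1 / 100)

/-- **ONE**: RFL at one length, from BLK, MULT, COL, DPIU, BLOW. -/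
def Stmt_ONE : Prop := ∀ lam δ₁ n₀ b₀ : ℝ, 0 < lam → 0 < δ₁ → 0 < n₀ → 0 < b₀ →
  ∃ A₀ : ℝ, 0 < A₀ ∧ ∀ (k n₁ T R N : ℕ) (a : ℝ) (C Ω : Type) [Fintype C] [Fintype Ω]
    [DecidableEq C], 2 ≤ k → 2 ≤ N → A₀ * N ≤ T → 1 ≤ R → 0 ≤ a → A₀ * (a + 1) ≤ R →
    ∀ Γ : ℝ, Γ = 1 / (N : ℝ) * T * R * δ₁ → A₀ * √(n₁ : ℝ) ≤ Γ →
    ∀ U : UnitData k n₁ T R (1 / (N : ℝ)) Γ (lam / 1000 * Γ) a n₀ b₀ C Ω, HPLuck U (1 / 100) →
    ∀ B : List (Fin k) → Prop, 1 / 2 ≤ (Ex k n₁ fun u => ind (B u)) →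
    (Ex k n₁ fun V => ind ((Ex k n₁ fun u => ind (B u ∧ gam k * n₁ + Γ / 4 ≤ (L u V : ℝ))) <
      Real.exp (-(lam * Γ / 8)))) ≤ Real.exp (-(Γ ^ 2 / (100 * n₁)))

/-- **ABSFIN** -/
def Stmt_ABSFIN : Prop := Stmt_TENS → Stmt_ONE → Stmt_ABS

/-! ### blocks of UNITDATA -/

/-- kernel of blocks of length `n` (densities with respect to the uniform law) with luck `δ` at
relative entropy `≤ z δ` -/
structure KerData (k n : ℕ) (z δ b : ℝ) (q : List (Fin k) → List (Fin k) → ℝ) : Prop where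
  low : ∀ v x, v.length = n → x.length = n → Real.exp (-b) ≤ q v x
  up : ∀ v x, v.length = n → x.length = n → q v x ≤ Real.exp b
  one : ∀ v, v.length = n → Ex k n (q v) = 1
  luck : gam k * n + δ ≤ Ex k n fun v => Ex k n fun x => q v x * (L x v : ℝ)
  ent : (Ex k n fun v => Ex k n fun x => q v x * Real.log (q v x)) ≤ z * δ

/-- **KERQ**: Gibbs kernels from (Q): `q v x = exp (z L x v) / Ex (exp (z L · v))`. -/
def Stmt_KERQ : Prop := Stmt_Q → ∀ k : ℕ, 2 ≤ k → Rigid k → ∀ z : ℝ, 0 < z →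
  ∃ (n : ℕ) (δ b : ℝ) (q : List (Fin k) → List (Fin k) → ℝ), 1 ≤ n ∧ 0 < δ ∧ 0 < b ∧
    KerData k n z δ b q

section
variable {k : ℕ}

/-- marginal of the kernel on uniform windows -/
def marg (n : ℕ) (q : List (Fin k) → List (Fin k) → ℝ) (x : List (Fin k)) : ℝ :=
  Ex k n fun v => q v x

/-- kernel of the contents (`R` blocks of length `n`) for a window `v` of any length -/
def kernR (n : ℕ) (q : List (Fin k) → List (Fin k) → ℝ) : ℕ → List (Fin k) → List (Fin k) → ℝ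
  | 0, _, _ => 1
  | R + 1, v, x => (if n ≤ v.length then q (v.take n) (x.take n) else marg n q (x.take n)) *
      kernR n q R (v.drop n) (x.drop n)

/-- density of the planted contents -/
def margR (n : ℕ) (q : List (Fin k) → List (Fin k) → ℝ) : ℕ → List (Fin k) → ℝ
  | 0, _ => 1
  | R + 1, x => marg n q (x.take n) * margR n q R (x.drop n)

/-- mean over the contents given the windows -/
def Exk (l : ℕ) (K : List (Fin k) → List (Fin k) → ℝ) :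
    List (List (Fin k)) → (List (List (Fin k)) → ℝ) → ℝ
  | [], f => f []
  | v :: vs, f => Ex k l fun c => K v c * Exk l K vs fun cs => f (c :: cs)

/-- relative entropy of the kernel at the window `v` with respect to the planted density -/
def KLv (l : ℕ) (K : List (Fin k) → List (Fin k) → ℝ) (g : List (Fin k) → ℝ) (v : List (Fin k)) : ℝ :=
  Ex k l fun c => K v c * Real.log (K v c / g c)

/-- sum over the labelled cells -/
def labSum : List Bool → List (List (Fin k)) → (List (Fin k) → ℝ) → ℝ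
  | true :: bs, v :: vs, h => h v + labSum bs vs h
  | false :: bs, _ :: vs, h => labSum bs vs h
  | _, _, _ => 0

end

/-- **KERR**: the kernel of the contents is a density with the right marginal for every window
length. -/
def Stmt_KERR : Prop := ∀ (k n R : ℕ) (z δ b : ℝ) (q : List (Fin k) → List (Fin k) → ℝ), 0 < k →
  1 ≤ n → KerData k n z δ b q →
  (∀ v, IsDens k (R * n) (kernR n q R v)) ∧ IsDens k (R * n) (margR n q R) ∧
  (∀ (c : ℕ) (x : List (Fin k)), x.length = R * n →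
    (Ex k c fun v => kernR n q R v x) = margR n q R x) ∧
  (∀ x, x.length = R * n → Real.exp (-(b * R)) ≤ margR n q R x ∧ margR n q R x ≤ Real.exp (b * R))

/-- **UDOM**: domination of the law of the contents. -/
def Stmt_UDOM : Prop := ∀ (k l T b : ℕ) (K : List (Fin k) → List (Fin k) → ℝ)
  (g : List (Fin k) → ℝ) (xs : List (List (Fin k))) (f : List (List (Fin k)) → ℝ)
  (win : List (Fin k) → List (List (Fin k))), 0 < k → 1 ≤ T → b ≤ k * (T * l) →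
  (∀ v c, c.length = l → 0 ≤ K v c) →
  (∀ (m : ℕ) (c : List (Fin k)), c.length = l → (Ex k m fun v => K v c) = g c) →
  (∀ cs, 0 ≤ f cs) → (∀ y, y.length = b → OptWin xs y (win y)) → xs.length = T →
  (Ex k b fun y => Exk l K (win y) f) ≤
    Real.exp ((Real.log (k * l + 1) + 1) * T) * Exc k l g T f

/-- **ULUCK**: luck and entropy of the planted word (`l = R n`, `e = ⌊(ρ - 1) l⌋`), arbitrarily
large `T / N`, window function `win` fixed in advance. -/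
def Stmt_ULUCK : Prop := ∀ k : ℕ, 2 ≤ k → Rigid k → ∀ (n : ℕ) (z δ b₀ : ℝ)
  (q : List (Fin k) → List (Fin k) → ℝ), 1 ≤ n → 0 < z → 0 < δ → KerData k n z δ b₀ q →
  ∀ᶠ R : ℕ in atTop, ∀ l e : ℕ, l = R * n → e = ⌊(rho k - 1) * l⌋₊ →
  ∀ win : List (List (Fin k)) → List (Fin k) → List (List (Fin k)),
  (∀ xs y, xs ≠ [] → OptWin xs y (win xs y)) →
  ∀ T₀ : ℕ, ∃ T N b : ℕ, 2 ≤ N ∧ T₀ * N ≤ T ∧ 1 ≤ T ∧ Flat k ((T * l : ℕ) : ℝ) b ∧ T * l ≤ b ∧
    b ≤ k * (T * l) ∧ (∀ w, w.length = l → 1 / (N : ℝ) * margR n q R w ≤ 1 / 2) ∧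
    (T₀ * √(T : ℝ) ≤ 1 / (N : ℝ) * T * R * (δ / 8)) ∧
    al k * ((T : ℝ) * (l + e) + (b + e * T)) + 1 / (N : ℝ) * T * R * (δ / 4) ≤
      (EB (1 / (N : ℝ)) T fun bs => Exc k l (gmin (1 / (N : ℝ)) (margR n q R)) T fun xs =>
        Exs k e T fun zs => Ex k b fun y => Ex k (e * T) fun y₂ =>
          Exk l (kernR n q R) (win xs y) fun cs => (L (splice bs xs cs zs) (y ++ y₂) : ℝ)) ∧
    (EB (1 / (N : ℝ)) T fun bs => Exc k l (gmin (1 / (N : ℝ)) (margR n q R)) T fun xs =>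
        Ex k b fun y => labSum bs (win xs y) (KLv l (kernR n q R) (margR n q R))) ≤
      2 * z * (1 / (N : ℝ) * T * R * δ)

/-- **UCONV**: from the list form to `UnitData` (adds the diagonalising piece: DEF). -/
def Stmt_UCONV : Prop := Stmt_DEF → Stmt_PHI → Stmt_KERQ → Stmt_KERR → Stmt_UDOM → Stmt_UNIF →
  Stmt_ULUCK → Stmt_Q → Stmt_UNITDATA

end

end Pool.Agent.LCSV
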