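import Pool.Agent.Work.MP_bec1e1_lv_helper15.Interface0
import Pool.Agent.Work.MP_bec1e1_lv_helper15.Tools0

/-!
# Planting: exactly uniform words with planted contents (used by A and LU). See `PROOF.md`.

Data of one cell: label, base content `x` (length `l`, density `g₂`), planted content `c` (length `l`,
density `g₁`), fresh word `z` (length `e`, uniform). The word `splice` replaces the base content of the
labelled cells by `c ++ z`; the fresh words of the unlabelled cells are put at the end (padding).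
-/

set_option autoImplicit false
set_option maxHeartbeats 400000

open Filter Topology
open scoped BigOperators

namespace Pool.Agent.LCSV

open Pool.Agent.LCSE

noncomputable section

/-- mean over lists of `T` independent labels, `true` with probability `θ` -/
def EB (θ : ℝ) : ℕ → (List Bool → ℝ) → ℝ
  | 0, f => f []
  | T + 1, f => θ * EB θ T (fun bs => f (true :: bs)) + (1 - θ) * EB θ T (fun bs => f (false :: bs))

section
variable {k : ℕ}

/-- the final word -/
def splice : List Bool → List (List (Fin k)) → List (List (Fin k)) → List (List (Fin k)) →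
    List (Fin k)
  | true :: bs, _ :: xs, c :: cs, z :: zs => c ++ z ++ splice bs xs cs zs
  | false :: bs, x :: xs, _ :: cs, z :: zs => x ++ splice bs xs cs zs ++ z
  | _, _, _, _ => []

/-- the padding -/
def pad : List Bool → List (List (Fin k)) → List (Fin k)
  | true :: bs, _ :: zs => pad bs zs
  | false :: bs, z :: zs => pad bs zs ++ z
  | _, _ => []

/-- density of the base contents -/
def gmin (θ : ℝ) (g₁ : List (Fin k) → ℝ) (w : List (Fin k)) : ℝ := (1 - θ * g₁ w) / (1 - θ)

/-- value of the cells along the windows `vs` (without the padding) -/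
def cellVal (l : ℕ) : List Bool → List (List (Fin k)) → List (List (Fin k)) →
    List (List (Fin k)) → List (List (Fin k)) → ℝ
  | true :: bs, _ :: xs, c :: cs, z :: zs, v :: vs =>
      (L c (v.take l) : ℝ) + L z (v.drop l) + cellVal l bs xs cs zs vs
  | false :: bs, x :: xs, _ :: cs, _ :: zs, v :: vs => (L x v : ℝ) + cellVal l bs xs cs zs vs
  | _, _, _, _, _ => 0

/-- `vs` are windows of an optimal path of the cells `xs` and the word `y` -/
def OptWin (xs : List (List (Fin k))) (y : List (Fin k)) (vs : List (List (Fin k))) : Prop :=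
  vs.length = xs.length ∧ vs.flatten = y ∧
    (L xs.flatten y : ℝ) = (List.zipWith (fun x v => (L x v : ℝ)) xs vs).sum

end

/-- **UNIF**: the final word is exactly uniform. -/
def Stmt_UNIF : Prop := ∀ (k l e T : ℕ) (θ : ℝ) (g₁ : List (Fin k) → ℝ) (f : List (Fin k) → ℝ),
  0 < k → θ < 1 → IsDens k l g₁ →
  EB θ T (fun bs => Exc k l (gmin θ g₁) T fun xs => Exc k l g₁ T fun cs => Exs k e T fun zs =>
    f (splice bs xs cs zs)) = Ex k (T * (l + e)) f

/-- **SPLV**: lower bound for the LCS of the final word. -/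
def Stmt_SPLV : Prop := ∀ (k l : ℕ) (bs : List Bool) (xs cs zs vs : List (List (Fin k)))
  (y : List (Fin k)), xs.length = bs.length → cs.length = bs.length → zs.length = bs.length →
  vs.length = bs.length →
  cellVal l bs xs cs zs vs + (L (pad bs zs) y : ℝ) ≤ (L (splice bs xs cs zs) (vs.flatten ++ y) : ℝ)

/-- **BASEP**: mean of the base under the modified law (from BASE, CHI, MGF), all `θ ≤ A / √T`; the
constant `C₁` does not depend on `l`, `g₁`, `A`. -/
def Stmt_BASEP : Prop := ∀ k : ℕ, 2 ≤ k → Rigid k → ∃ C₁ : ℝ, 0 < C₁ ∧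
  ∀ (l : ℕ) (g₁ : List (Fin k) → ℝ), 1 ≤ l → IsDens k l g₁ → ∀ A τ : ℝ, 0 < A → 0 < τ →
  ∀ T₀ : ℕ, ∃ T b : ℕ, T₀ ≤ T ∧ Flat k ((T * l : ℕ) : ℝ) b ∧ (rho k - τ) * (T * l) ≤ b ∧
    A / √(T : ℝ) ≤ 1 / 2 ∧ (∀ w, w.length = l → A / √(T : ℝ) * g₁ w ≤ 1 / 2) ∧
    ∀ θ : ℝ, 0 ≤ θ → θ ≤ A / √(T : ℝ) →
    al k * ((T : ℝ) * l + b) - C₁ * l * √(T : ℝ) ≤
      Exc k l (gmin θ g₁) T fun xs => Ex k b fun y => (L xs.flatten y : ℝ)

/-- **TYPP**: typical windows of the base path. `bad` is any event of exponentially small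
probability for independent (cell, window); the cells have a density `≤ 2`, the mean is almost the
line, the direction is close to the column rich ray. -/
def Stmt_TYPP : Prop := ∀ k : ℕ, 2 ≤ k → PhiFacts k → ∀ ε η : ℝ, 0 < ε → 0 < η → ∃ τ : ℝ, 0 < τ ∧
  ∀ᶠ l : ℕ in atTop, ∀ᶠ T : ℕ in atTop, ∀ (g : List (Fin k) → ℝ)
    (bad : List (Fin k) → List (Fin k) → Prop) (b : ℕ)
    (win : List (List (Fin k)) → List (Fin k) → List (List (Fin k))),
    IsDens k l g → (∀ w, w.length = l → g w ≤ 2) →
    (∀ c : ℕ, (Ex k l fun x => Ex k c fun v => ind (bad x v)) ≤ Real.exp (-(η * l))) →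
    (∀ xs y, xs.length = T → OptWin xs y (win xs y)) →
    (rho k - τ) * (T * l) ≤ b → (b : ℝ) ≤ rho k * (T * l) →
    al k * ((T : ℝ) * l + b) - τ * l * T ≤
      (Exc k l g T fun xs => Ex k b fun y => (L xs.flatten y : ℝ)) →
    (Exc k l g T fun xs => Ex k b fun y => (List.zipWith (fun x v =>
      ind (bad x v ∨ ε * l < |(v.length : ℝ) - rho k * l| ∨ Phi k l v.length + ε * l < (L x v : ℝ) ∨
        (L x v : ℝ) < Phi k l v.length - ε * l)) xs (win xs y)).sum) ≤ ε * T

/-- **ADIAG**: from UNIF, SPLV, BASEP, TYPP (and DEF): the bound on the diagonal. -/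
def Stmt_ADIAG : Prop := ∀ k : ℕ, 2 ≤ k → Rigid k → ∀ x : List (Fin k),
  (Ex k x.length fun y => (L x y : ℝ)) ≤ gam k * x.length

/-- **ALINE**: from ADIAG, SUP and PHI. -/
def Stmt_ALINE : Prop := Stmt_ADIAG → Stmt_PHI → Stmt_SUP → Stmt_A

end

end Pool.Agent.LCSV
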